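import Pool.Agent.Work.MP_c4d05f_lc.N.R2.Main

/-!
# The lists of candidate corner sets
-/

set_option autoImplicit false

namespace Pool.Agent.Work.MP_c4d05f_lc.N

open Pool.Agent.Work.PolyTime Pool.Agent.Work.MP_c4d05f_lc

/-- All lists with at most `m` elements of `A`. -/
def listsL (A : List ℕ) : ℕ → List (List ℕ)
  | 0 => [[]]
  | m + 1 => [] :: (listsL A m).flatMap fun l => A.map fun u => u :: l

/-- Neighbours of the arms `ar` that are neither on an arm nor an end. -/
def naB (x : Inp) (ar en : List ℕ) (v : ℕ) : Bool :=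
  !(memB v ar) && (!(memB v en) && ar.any fun u => adjB x u v)

/-- The component of `e₀` without the arms and their neighbours. -/
def vzL (x : Inp) (A ar en : List ℕ) (e₀ : ℕ) : List ℕ :=
  reachL x (A.filter fun v => decide (v = e₀) || (!(memB v ar) && !(naB x ar en v))) e₀

/-- The region of the strip structure. -/
def v1L (x : Inp) (A ar en tm : List ℕ) (e₀ : ℕ) : List ℕ :=
  A.filter fun v => memB v (vzL x A ar en e₀) || memB v tm

/-- `v` cannot be separated from the terminals. -/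
def coreB (x : Inp) (A V1 tm : List ℕ) (v : ℕ) : Bool :=
  A.all fun a => A.all fun b => A.all fun c =>
    (decide (v = a) || (decide (v = b) || (decide (v = c) || !(sep3B x a b c)))) ||
      tm.any fun t => !(decide (t = a)) && (!(decide (t = b)) && (!(decide (t = c)) &&
        memB t (reachL x (V1.filter fun u => !(decide (u = a)) && (!(decide (u = b)) &&
          !(decide (u = c)))) v)))

/-- The candidate set. -/
def corL (x : Inp) (A ar en tm : List ℕ) (e₀ : ℕ) : List ℕ :=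
  (v1L x A ar en tm e₀).filter fun v => !(memB v tm) && coreB x A (v1L x A ar en tm e₀) tm v

/-- All candidate sets. -/
def candL (l : ℕ) (x : Inp) (A : List ℕ) : List (List ℕ) :=
  (listsL A (4 * l)).flatMap fun ar => (listsL A 4).flatMap fun en =>
    (listsL A 4).flatMap fun tm => A.map fun e₀ => corL x A ar en tm e₀

section

variable {α : Type} [Code α]

theorem ptime_listsL {A : α → List ℕ} (hA : PTime A) (m : ℕ) :
    PTime (fun s => listsL (A s) m) := by
  induction m with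
  | zero => exact PTime.const _
  | succ m ih =>
    unfold listsL
    refine PTime.cons (PTime.const _) (PTime.flatMap ih (PTime.map (hA.comp PTime.fst) ?_))
    fun_prop

@[fun_prop]
theorem ptime_naB {x : α → Inp} {ar en : α → List ℕ} {v : α → ℕ} (hx : PTime x)
    (har : PTime ar) (hen : PTime en) (hv : PTime v) :
    PTime (fun s => naB (x s) (ar s) (en s) (v s)) := by
  unfold naB
  refine PTime.and (by fun_prop) (PTime.and (by fun_prop) (PTime.any (by fun_prop) ?_))
  fun_prop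

@[fun_prop]
theorem ptime_vzL {x : α → Inp} {A ar en : α → List ℕ} {e₀ : α → ℕ} (hx : PTime x)
    (hA : PTime A) (har : PTime ar) (hen : PTime en) (he : PTime e₀) :
    PTime (fun s => vzL (x s) (A s) (ar s) (en s) (e₀ s)) := by
  unfold vzL
  refine ptime_reachL hx (PTime.filter hA ?_) he
  fun_prop

@[fun_prop]
theorem ptime_v1L {x : α → Inp} {A ar en tm : α → List ℕ} {e₀ : α → ℕ} (hx : PTime x)
    (hA : PTime A) (har : PTime ar) (hen : PTime en) (htm : PTime tm) (he : PTime e₀) :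
    PTime (fun s => v1L (x s) (A s) (ar s) (en s) (tm s) (e₀ s)) := by
  unfold v1L
  refine PTime.filter hA ?_
  fun_prop

@[fun_prop]
theorem ptime_coreB {x : α → Inp} {A V1 tm : α → List ℕ} {v : α → ℕ} (hx : PTime x)
    (hA : PTime A) (hV : PTime V1) (htm : PTime tm) (hv : PTime v) :
    PTime (fun s => coreB (x s) (A s) (V1 s) (tm s) (v s)) := by
  unfold coreB
  refine PTime.all hA (PTime.all (by fun_prop) (PTime.all (by fun_prop) (PTime.or (by fun_prop)
    (PTime.any (by fun_prop) (PTime.and (by fun_prop) (PTime.and (by fun_prop)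
      (PTime.and (by fun_prop) (PTime.memB (by fun_prop) (ptime_reachL (by fun_prop)
        (PTime.filter (by fun_prop) ?_) (by fun_prop))))))))))
  fun_prop

@[fun_prop]
theorem ptime_corL {x : α → Inp} {A ar en tm : α → List ℕ} {e₀ : α → ℕ} (hx : PTime x)
    (hA : PTime A) (har : PTime ar) (hen : PTime en) (htm : PTime tm) (he : PTime e₀) :
    PTime (fun s => corL (x s) (A s) (ar s) (en s) (tm s) (e₀ s)) := by
  unfold corL
  refine PTime.filter (by fun_prop) ?_
  fun_prop

end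

theorem ptime_candL (l : ℕ) : PTime (fun y : Inp × List ℕ => candL l y.1 y.2) := by
  unfold candL
  refine PTime.flatMap (ptime_listsL (by fun_prop) _) (PTime.flatMap
    (ptime_listsL (by fun_prop) _) (PTime.flatMap (ptime_listsL (by fun_prop) _)
      (PTime.map (by fun_prop) ?_)))
  fun_prop

/-! ### What the lists are -/

theorem mem_listsL {A : List ℕ} : ∀ (m : ℕ) (l : List ℕ), l.length ≤ m →
    (∀ g ∈ l, g ∈ A) → l ∈ listsL A m := by
  intro m
  induction m with
  | zero =>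
    intro l hl _
    have : l = [] := List.length_eq_zero_iff.1 (Nat.le_zero.1 hl)
    subst this
    simp [listsL]
  | succ m ih =>
    intro l hl hg
    cases l with
    | nil => simp [listsL]
    | cons g l =>
      simp only [listsL, List.mem_cons, List.mem_flatMap, List.mem_map]
      refine Or.inr ⟨l, ih l (by simpa using hl) (fun g' hg' => hg g' (List.mem_cons_of_mem _ hg')),
        g, hg g List.mem_cons_self, rfl⟩

variable {x : Inp} {A : List ℕ}

/-- Reachability from a vertex of `A` in a list of vertices of `A`. -/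
theorem reach_iff' {M : List ℕ} {S : Set {u // u ∈ A}} (hM : ∀ u ∈ M, u ∈ A)
    (hS : ∀ u : {u // u ∈ A}, (u : ℕ) ∈ M ↔ u ∈ S) {v u : {u // u ∈ A}} :
    Reach (ng x) (st M) v u ↔ Reach (GV x A) S v u := by
  constructor
  · intro h
    have key : ∀ n : ℕ, Reach (ng x) (st M) v n → ∃ hn : n ∈ A, Reach (GV x A) S v ⟨n, hn⟩ := by
      intro n hn
      induction hn with
      | refl => exact ⟨v.2, Relation.ReflTransGen.refl⟩
      | @tail b c h1 h2 ih =>
        obtain ⟨hb, ih⟩ := ih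
        exact ⟨hM c h2.2, ih.tail ⟨h2.1, (hS ⟨c, hM c h2.2⟩).1 h2.2⟩⟩
    obtain ⟨_, h'⟩ := key u h
    exact h'
  · intro h
    induction h with
    | refl => exact Relation.ReflTransGen.refl
    | @tail b c h1 h2 ih => exact ih.tail ⟨h2.1, (hS c).2 h2.2⟩

section

variable {ar en tm : List ℕ} {l : ℕ} {a : ℕ → ℕ → {u // u ∈ A}}

theorem naB_iff (har : ∀ u : {u // u ∈ A}, (u : ℕ) ∈ ar ↔ u ∈ ArmV l a) (harA : ∀ u ∈ ar, u ∈ A)
    (hen : ∀ u : {u // u ∈ A}, (u : ℕ) ∈ en ↔ ∃ i < 4, u = a i l) {v : {u // u ∈ A}} :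
    naB x ar en v = true ↔ v ∈ NArm (GV x A) l a := by
  rw [naB, Bool.and_eq_true, Bool.and_eq_true, memB_not, memB_not, List.any_eq_true, NArm,
    Set.mem_ofPred_eq, har, hen]
  refine and_congr_right fun _ => and_congr ?_ ?_
  · push Not
    rfl
  · constructor
    · rintro ⟨u, hu, hadj⟩
      exact ⟨⟨u, harA u hu⟩, (har ⟨u, harA u hu⟩).1 hu, hadj⟩
    · rintro ⟨u, hu, hadj⟩
      exact ⟨u, (har u).2 hu, hadj⟩

theorem mem_vzL (har : ∀ u : {u // u ∈ A}, (u : ℕ) ∈ ar ↔ u ∈ ArmV l a)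
    (harA : ∀ u ∈ ar, u ∈ A) (hen : ∀ u : {u // u ∈ A}, (u : ℕ) ∈ en ↔ ∃ i < 4, u = a i l)
    {v : {u // u ∈ A}} : (v : ℕ) ∈ vzL x A ar en (a 0 l) ↔ v ∈ VZ (GV x A) l a := by
  have hmem : ((a 0 l : {u // u ∈ A}) : ℕ) ∈ A.filter fun v => decide (v = (a 0 l : ℕ)) ||
      (!(memB v ar) && !(naB x ar en v)) := by
    rw [List.mem_filter]
    exact ⟨(a 0 l).2, by simp⟩
  rw [vzL, mem_reachL hmem, reach_iff' (S := insert (a 0 l) (ArmV l a ∪ NArm (GV x A) l a)ᶜ)
    (fun u hu => (List.mem_filter.1 hu).1)]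
  · rw [VZ, Comp, Set.mem_ofPred_eq]
    constructor
    · intro h
      induction h with
      | refl => exact Relation.ReflTransGen.refl
      | @tail b c h1 h2 ih =>
        rcases h2.2 with h3 | h3
        · rw [h3]
          exact Relation.ReflTransGen.refl
        · exact ih.tail ⟨h2.1, h3⟩
    · intro h
      induction h with
      | refl => exact Relation.ReflTransGen.refl
      | @tail b c h1 h2 ih => exact ih.tail ⟨h2.1, Or.inr h2.2⟩
  · intro u
    rw [List.mem_filter, Bool.or_eq_true, decide_eq_true_eq, Bool.and_eq_true, memB_not,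
      bnot_iff, naB_iff har harA hen, har, Set.mem_insert_iff, Set.mem_compl_iff, Set.mem_union,
      not_or]
    constructor
    · rintro ⟨-, h | h⟩
      · exact Or.inl (Subtype.ext h)
      · exact Or.inr h
    · rintro (h | h)
      · exact ⟨u.2, Or.inl (congrArg _ h)⟩
      · exact ⟨u.2, Or.inr h⟩

theorem mem_v1L (har : ∀ u : {u // u ∈ A}, (u : ℕ) ∈ ar ↔ u ∈ ArmV l a)
    (harA : ∀ u ∈ ar, u ∈ A) (hen : ∀ u : {u // u ∈ A}, (u : ℕ) ∈ en ↔ ∃ i < 4, u = a i l)
    (htm : ∀ u : {u // u ∈ A}, (u : ℕ) ∈ tm ↔ u ∈ TmV l a)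
    {v : {u // u ∈ A}} : (v : ℕ) ∈ v1L x A ar en tm (a 0 l) ↔
      v ∈ VZ (GV x A) l a ∪ TmV l a := by
  rw [v1L, List.mem_filter, Bool.or_eq_true, memB_iff, memB_iff, mem_vzL har harA hen, htm]
  exact ⟨fun h => h.2, fun h => ⟨v.2, h⟩⟩

theorem coreB_iff {V1 : List ℕ} {W T : Set {u // u ∈ A}} (hV : ∀ u ∈ V1, u ∈ A)
    (hVW : ∀ u : {u // u ∈ A}, (u : ℕ) ∈ V1 ↔ u ∈ W)
    (htm : ∀ u : {u // u ∈ A}, (u : ℕ) ∈ tm ↔ u ∈ T) (htA : ∀ u ∈ tm, u ∈ A)
    {v : {u // u ∈ A}} (hv : v ∈ W) : coreB x A V1 tm v = true ↔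
      ∀ p q r : {u // u ∈ A}, v ≠ p → v ≠ q → v ≠ r → Sep3 (GV x A) p q r →
        ∃ t ∈ T, t ≠ p ∧ t ≠ q ∧ t ≠ r ∧ Reach (GV x A) (W \ {p, q, r}) v t := by
  have hin : ∀ p q r : {u // u ∈ A},
      (((decide ((v : ℕ) = (p : ℕ)) || (decide ((v : ℕ) = (q : ℕ)) ||
        (decide ((v : ℕ) = (r : ℕ)) || !(sep3B x p q r)))) ||
      tm.any fun t => !(decide (t = (p : ℕ))) && (!(decide (t = (q : ℕ))) &&
        (!(decide (t = (r : ℕ))) && memB t (reachL x (V1.filter fun u =>
          !(decide (u = (p : ℕ))) && (!(decide (u = (q : ℕ))) && !(decide (u = (r : ℕ))))) v)))) =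
            true) ↔
      (v ≠ p → v ≠ q → v ≠ r → Sep3 (GV x A) p q r →
        ∃ t ∈ T, t ≠ p ∧ t ≠ q ∧ t ≠ r ∧ Reach (GV x A) (W \ {p, q, r}) v t) := by
    intro p q r
    have e : ∀ {c d : {u // u ∈ A}}, (c : ℕ) = (d : ℕ) ↔ c = d := fun {c d} =>
      ⟨fun h => Subtype.ext h, fun h => congrArg _ h⟩
    have hsep : sep3B x p q r = true ↔ Sep3 (GV x A) p q r := by
      rw [sep3B, Bool.or_eq_true, decide_eq_true_eq, triB_iff, e]
      exact Iff.rfl
    have hany : v ≠ p → v ≠ q → v ≠ r →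
        ((tm.any fun t => !(decide (t = (p : ℕ))) && (!(decide (t = (q : ℕ))) &&
        (!(decide (t = (r : ℕ))) && memB t (reachL x (V1.filter fun u =>
          !(decide (u = (p : ℕ))) && (!(decide (u = (q : ℕ))) && !(decide (u = (r : ℕ))))) v)))) =
            true ↔
        ∃ t ∈ T, t ≠ p ∧ t ≠ q ∧ t ≠ r ∧ Reach (GV x A) (W \ {p, q, r}) v t) := by
      intro n1 n2 n3
      have hmemf : ∀ u : {u // u ∈ A}, (u : ℕ) ∈ (V1.filter fun u =>
          !(decide (u = (p : ℕ))) && (!(decide (u = (q : ℕ))) && !(decide (u = (r : ℕ))))) ↔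
          u ∈ W \ {p, q, r} := by
        intro u
        simp only [List.mem_filter, Bool.and_eq_true, bnot_iff, decide_eq_true_eq, hVW,
          Set.mem_sdiff, Set.mem_insert_iff, Set.mem_singleton_iff, not_or, e]
      have hvm : (v : ℕ) ∈ (V1.filter fun u =>
          !(decide (u = (p : ℕ))) && (!(decide (u = (q : ℕ))) && !(decide (u = (r : ℕ))))) := by
        rw [hmemf]
        refine ⟨hv, ?_⟩
        simp only [Set.mem_insert_iff, Set.mem_singleton_iff, not_or]
        exact ⟨n1, n2, n3⟩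
      rw [List.any_eq_true]
      constructor
      · rintro ⟨t, ht, h⟩
        rw [Bool.and_eq_true, Bool.and_eq_true, Bool.and_eq_true, bnot_iff, bnot_iff, bnot_iff,
          decide_eq_true_eq, decide_eq_true_eq, decide_eq_true_eq, memB_iff,
          mem_reachL hvm] at h
        refine ⟨⟨t, htA t ht⟩, (htm ⟨t, htA t ht⟩).1 ht, fun h' => h.1 (congrArg Subtype.val h'),
          fun h' => h.2.1 (congrArg Subtype.val h'),
          fun h' => h.2.2.1 (congrArg Subtype.val h'), ?_⟩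
        exact (reach_iff' (fun u hu => hV u (List.mem_filter.1 hu).1) hmemf
          (u := ⟨t, htA t ht⟩)).1 h.2.2.2
      · rintro ⟨t, ht, m1, m2, m3, h⟩
        refine ⟨t, (htm t).2 ht, ?_⟩
        rw [Bool.and_eq_true, Bool.and_eq_true, Bool.and_eq_true, bnot_iff, bnot_iff, bnot_iff,
          decide_eq_true_eq, decide_eq_true_eq, decide_eq_true_eq, memB_iff,
          mem_reachL hvm, e, e, e]
        exact ⟨m1, m2, m3, (reach_iff' (fun u hu => hV u (List.mem_filter.1 hu).1) hmemf).2 h⟩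
    rw [Bool.or_eq_true, Bool.or_eq_true, Bool.or_eq_true, Bool.or_eq_true, decide_eq_true_eq,
      decide_eq_true_eq, decide_eq_true_eq, bnot_iff, hsep, e, e, e]
    constructor
    · rintro ((h | h | h | h) | h) n1 n2 n3 n4
      · exact absurd h n1
      · exact absurd h n2
      · exact absurd h n3
      · exact absurd n4 h
      · exact (hany n1 n2 n3).1 h
    · intro h
      by_cases n1 : v = p
      · exact Or.inl (Or.inl n1)
      by_cases n2 : v = q
      · exact Or.inl (Or.inr (Or.inl n2))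
      by_cases n3 : v = r
      · exact Or.inl (Or.inr (Or.inr (Or.inl n3)))
      by_cases n4 : Sep3 (GV x A) p q r
      · exact Or.inr ((hany n1 n2 n3).2 (h n1 n2 n3 n4))
      · exact Or.inl (Or.inr (Or.inr (Or.inr n4)))
  unfold coreB
  simp only [List.all_eq_true]
  constructor
  · intro h p q r
    exact (hin p q r).1 (h p p.2 q q.2 r r.2)
  · intro h p hp q hq r hr
    exact (hin ⟨p, hp⟩ ⟨q, hq⟩ ⟨r, hr⟩).2 (h ⟨p, hp⟩ ⟨q, hq⟩ ⟨r, hr⟩)

theorem mem_corL (har : ∀ u : {u // u ∈ A}, (u : ℕ) ∈ ar ↔ u ∈ ArmV l a)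
    (harA : ∀ u ∈ ar, u ∈ A) (hen : ∀ u : {u // u ∈ A}, (u : ℕ) ∈ en ↔ ∃ i < 4, u = a i l)
    (htm : ∀ u : {u // u ∈ A}, (u : ℕ) ∈ tm ↔ u ∈ TmV l a) (htA : ∀ u ∈ tm, u ∈ A)
    {v : {u // u ∈ A}} : (v : ℕ) ∈ corL x A ar en tm (a 0 l) ↔ v ∈ Cor (GV x A) l a := by
  have hV1A : ∀ u ∈ v1L x A ar en tm (a 0 l), u ∈ A := fun u hu => (List.mem_filter.1 hu).1
  rw [corL, List.mem_filter, mem_v1L har harA hen htm, Bool.and_eq_true, memB_not, htm, Cor,
    Core]
  constructor
  · rintro ⟨h1, h2, h3⟩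
    exact ⟨⟨h1, Or.inr ((coreB_iff hV1A (fun u => mem_v1L har harA hen htm) htm htA h1).1 h3)⟩,
      h2⟩
  · rintro ⟨⟨h1, h3⟩, h2⟩
    exact ⟨h1, h2, (coreB_iff hV1A (fun u => mem_v1L har harA hen htm) htm htA h1).2
      (h3.resolve_left h2)⟩

end

/-- The lists contain all candidate sets. -/
theorem candL_spec (l : ℕ) (x : Inp) (A : List ℕ) : ∀ C ∈ CorFam l (GV x A),
    ∃ C0 ∈ candL l x A, (∀ u ∈ C0, u ∈ A) ∧ ∀ u : {u // u ∈ A}, (u : ℕ) ∈ C0 ↔ u ∈ C := by
  rintro C ⟨a, rfl⟩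
  set ar : List ℕ := (List.range 4).flatMap (fun i => (List.range l).map
    (fun j => ((a i j : {u // u ∈ A}) : ℕ))) with har
  set en : List ℕ := (List.range 4).map (fun i => ((a i l : {u // u ∈ A}) : ℕ)) with hen
  set tm : List ℕ := (List.range 4).map (fun i => ((a i (l - 1) : {u // u ∈ A}) : ℕ)) with htm
  have har' : ∀ u : {u // u ∈ A}, (u : ℕ) ∈ ar ↔ u ∈ ArmV l a := by
    intro u
    simp only [har, List.mem_flatMap, List.mem_map, List.mem_range, ArmV, Set.mem_ofPred_eq]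
    constructor
    · rintro ⟨i, hi, j, hj, h⟩
      exact ⟨i, hi, j, hj, Subtype.ext h.symm⟩
    · rintro ⟨i, hi, j, hj, h⟩
      exact ⟨i, hi, j, hj, (congrArg _ h).symm⟩
  have hen' : ∀ u : {u // u ∈ A}, (u : ℕ) ∈ en ↔ ∃ i < 4, u = a i l := by
    intro u
    simp only [hen, List.mem_map, List.mem_range]
    constructor
    · rintro ⟨i, hi, h⟩
      exact ⟨i, hi, Subtype.ext h.symm⟩
    · rintro ⟨i, hi, h⟩
      exact ⟨i, hi, (congrArg _ h).symm⟩
  have htm' : ∀ u : {u // u ∈ A}, (u : ℕ) ∈ tm ↔ u ∈ TmV l a := by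
    intro u
    simp only [htm, List.mem_map, List.mem_range, TmV, Set.mem_ofPred_eq]
    constructor
    · rintro ⟨i, hi, h⟩
      exact ⟨i, hi, Subtype.ext h.symm⟩
    · rintro ⟨i, hi, h⟩
      exact ⟨i, hi, (congrArg _ h).symm⟩
  have harA : ∀ u ∈ ar, u ∈ A := by
    intro u hu
    simp only [har, List.mem_flatMap, List.mem_map, List.mem_range] at hu
    obtain ⟨i, -, j, -, rfl⟩ := hu
    exact (a i j).2
  have henA : ∀ u ∈ en, u ∈ A := by
    intro u hu
    simp only [hen, List.mem_map, List.mem_range] at hu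
    obtain ⟨i, -, rfl⟩ := hu
    exact (a i l).2
  have htmA : ∀ u ∈ tm, u ∈ A := by
    intro u hu
    simp only [htm, List.mem_map, List.mem_range] at hu
    obtain ⟨i, -, rfl⟩ := hu
    exact (a i (l - 1)).2
  refine ⟨corL x A ar en tm (a 0 l), ?_, ?_, fun u => mem_corL har' harA hen' htm' htmA⟩
  · simp only [candL, List.mem_flatMap, List.mem_map]
    refine ⟨ar, mem_listsL _ _ ?_ harA, en, mem_listsL _ _ ?_ henA, tm, mem_listsL _ _ ?_ htmA,
      a 0 l, (a 0 l).2, rfl⟩
    · simp only [har, List.length_flatMap, List.length_map, List.length_range, List.map_const',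
        List.sum_replicate, smul_eq_mul, le_refl]
    · simp [hen]
    · simp [htm]
  · intro u hu
    exact (List.mem_filter.1 (List.mem_filter.1 hu).1).1

/-- **GOAL A for the family `CorFam l`** (generic in the matching black box). -/
theorem poly_of_haven_cor {P : ∀ V : Type, SimpleGraph V → Prop}
    (hP : ∀ (V W : Type) (G : SimpleGraph V) (H : SimpleGraph W), Nonempty (H ↪g G) → P V G →
      P W H) {fb : FD → Bool} (hfT : PTime fb)
    (hfb : ∀ D, FOK D → (fb D = true ↔ ∃ w, FSol D w)) {l w : ℕ}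
    (hH : HavenThm2 P (fun _ G => CorFam l G) w) :
    PTime (fun x : Inp => algoN2 fb (candL l) w x) ∧
      ∀ x : Inp, P (Fin x.1) (graphOf x.1 x.2) →
        (algoN2 fb (candL l) w x = true ↔ ∃ M, IsDIM (graphOf x.1 x.2) M) :=
  poly_of_haven2 hP (ptime_candL l) (fun x A _ C hC => candL_spec l x A C hC) hfT hfb hH

end Pool.Agent.Work.MP_c4d05f_lc.N
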