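import Mathlib

/-!
# Interface to the matching black box

`FD`, `FOK`, `FSol`. (The definitions of the frame rule are in `N/Alg/Defs2.lean`.)
-/

set_option autoImplicit false

namespace Pool.Agent.Work.MP_c4d05f_lc.N

/-- Data of the matching problem: number of vertices, triangles, corners that may be white, links
(each one once), allowed pairs of values (`true` = white) for the links. -/
abbrev FD : Type :=
  ℕ × List (List ℕ) × List ℕ × List (ℕ × ℕ) × List ((ℕ × ℕ) × Bool × Bool)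

/-- The data are well formed. -/
structure FOK (D : FD) : Prop where
  lt : ∀ t ∈ D.2.1, ∀ c ∈ t, c < D.1
  nd : ∀ t ∈ D.2.1, t.Nodup
  dj : D.2.1.Pairwise List.Disjoint
  llt : ∀ e ∈ D.2.2.2.1, e.1 < D.1 ∧ e.2 < D.1 ∧ e.1 ≠ e.2
  ldj : D.2.2.2.1.Pairwise (fun e f => e.1 ≠ f.1 ∧ e.1 ≠ f.2 ∧ e.2 ≠ f.1 ∧ e.2 ≠ f.2)

/-- `w` is the set of the white corners of a solution. -/
def FSol (D : FD) (w : ℕ → Prop) : Prop :=
  (∀ c, w c → c ∈ D.2.2.1 ∧ ∃ t ∈ D.2.1, c ∈ t) ∧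
  (∀ t ∈ D.2.1, ∃ c ∈ t, w c ∧ ∀ d ∈ t, w d → d = c) ∧
  ∀ e ∈ D.2.2.2.1, ∃ a b, (e, a, b) ∈ D.2.2.2.2 ∧ (w e.1 ↔ a = true) ∧ (w e.2 ↔ b = true)

end Pool.Agent.Work.MP_c4d05f_lc.N
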