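import Pool.Agent.Work.PolyTime.Blossom.Frame
import Pool.Agent.Work.MP_c4d05f_lc.N.R2.Defs

/-!
# The matching black box for the frame rule
-/

set_option autoImplicit false

namespace Pool.Agent.Work.MP_c4d05f_lc.N

open Pool.Agent.Work.PolyTime

/-- The corners in the listed triangles. -/
def cornL (D : FD) : List ℕ := D.2.1.flatMap fun t => t

/-- A corner that stands for the triangle of `c`. -/
def ndF (D : FD) (c : ℕ) : ℕ := ((D.2.1.filter fun t => decide (c ∈ t)).getD 0 []).getD 0 0

/-- The link of `c`. -/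
def lkE (D : FD) (c : ℕ) : ℕ × ℕ :=
  (D.2.2.2.1.filter fun e => decide (e.1 = c) || decide (e.2 = c)).getD 0 (c, c)

/-- The other end of the link. -/
def othF (D : FD) (c : ℕ) : ℕ := if (lkE D c).1 = c then (lkE D c).2 else (lkE D c).1

/-- The linked corner (in a listed triangle), or `c`. -/
def lkF (D : FD) (c : ℕ) : ℕ := if othF D c ∈ cornL D then othF D c else c

/-- The relation. -/
def relF (D : FD) (c : ℕ) (a b : Bool) : Bool :=
  (!a || decide (c ∈ D.2.2.1)) && D.2.2.2.1.all fun e =>
    (!decide (e.1 = c) || decide ((e, a, b && decide (e.2 ∈ cornL D)) ∈ D.2.2.2.2)) &&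
    (!decide (e.2 = c) || decide ((e, b && decide (e.1 ∈ cornL D), a) ∈ D.2.2.2.2))

/-- The decision algorithm. -/
def frameB (D : FD) : Bool :=
  (D.2.1.all fun t => !t.isEmpty) && ((D.2.2.2.1.all fun e => decide (e.1 ∈ cornL D) ||
    (decide (e.2 ∈ cornL D) || decide ((e, false, false) ∈ D.2.2.2.2))) &&
  Blossom.frameB D.1 (cornL D) (ndF D) (lkF D) (relF D))

theorem mem_cornL {D : FD} {c : ℕ} : c ∈ cornL D ↔ ∃ t ∈ D.2.1, c ∈ t := by
  simp [cornL]

theorem getD_of_forall_eq {α : Type*} {l : List α} {a d : α} (h1 : a ∈ l) (h2 : ∀ b ∈ l, b = a) :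
    l.getD 0 d = a := by
  cases l with
  | nil => simp at h1
  | cons b l => exact h2 b (by simp)

theorem relF_iff {D : FD} {c : ℕ} {a b : Bool} : relF D c a b = true ↔
    (a = true → c ∈ D.2.2.1) ∧ ∀ e ∈ D.2.2.2.1,
      (e.1 = c → (e, a, b && decide (e.2 ∈ cornL D)) ∈ D.2.2.2.2) ∧
      (e.2 = c → (e, b && decide (e.1 ∈ cornL D), a) ∈ D.2.2.2.2) := by
  unfold relF
  rw [Bool.and_eq_true, List.all_eq_true]
  refine and_congr ?_ (forall₂_congr fun e _ => ?_)
  · cases a <;> simp
  · rw [Bool.and_eq_true]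
    refine and_congr ?_ ?_
    · by_cases h : e.1 = c <;> simp [h]
    · by_cases h : e.2 = c <;> simp [h]

section

variable {D : FD} (h : FOK D)

include h

theorem tri_eq {t t' : List ℕ} {c : ℕ} (ht : t ∈ D.2.1) (ht' : t' ∈ D.2.1) (hc : c ∈ t)
    (hc' : c ∈ t') : t = t' := by
  by_contra hne
  have : Std.Symm (List.Disjoint (α := ℕ)) := ⟨fun _ _ hab => hab.symm⟩
  exact h.dj.forall ht ht' hne hc hc'

theorem lk_eq {e f : ℕ × ℕ} (he : e ∈ D.2.2.2.1) (hf : f ∈ D.2.2.2.1) {c : ℕ}
    (hc : e.1 = c ∨ e.2 = c) (hc' : f.1 = c ∨ f.2 = c) : e = f := by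
  by_contra hne
  have : Std.Symm (fun e f : ℕ × ℕ => e.1 ≠ f.1 ∧ e.1 ≠ f.2 ∧ e.2 ≠ f.1 ∧ e.2 ≠ f.2) :=
    ⟨fun _ _ hab => ⟨hab.1.symm, hab.2.2.1.symm, hab.2.1.symm, hab.2.2.2.symm⟩⟩
  obtain ⟨h1, h2, h3, h4⟩ := h.ldj.forall he hf hne
  rcases hc with hc | hc <;> rcases hc' with hc' | hc'
  · exact h1 (hc.trans hc'.symm)
  · exact h2 (hc.trans hc'.symm)
  · exact h3 (hc.trans hc'.symm)
  · exact h4 (hc.trans hc'.symm)

theorem ndF_eq {t : List ℕ} {c : ℕ} (ht : t ∈ D.2.1) (hc : c ∈ t) : ndF D c = t.getD 0 0 := by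
  unfold ndF
  rw [getD_of_forall_eq (a := t)]
  · exact List.mem_filter.2 ⟨ht, by simpa using hc⟩
  · intro t' ht'
    rw [List.mem_filter, decide_eq_true_eq] at ht'
    exact tri_eq h ht'.1 ht ht'.2 hc

theorem getD_mem_self {t : List ℕ} {c : ℕ} (hc : c ∈ t) : t.getD 0 0 ∈ t := by
  cases t with
  | nil => simp at hc
  | cons b t => simp

theorem lkE_eq {e : ℕ × ℕ} {c : ℕ} (he : e ∈ D.2.2.2.1) (hc : e.1 = c ∨ e.2 = c) :
    lkE D c = e := by
  unfold lkE
  refine getD_of_forall_eq (List.mem_filter.2 ⟨he, by simpa using hc⟩) ?_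
  intro f hf
  rw [List.mem_filter, Bool.or_eq_true, decide_eq_true_eq, decide_eq_true_eq] at hf
  exact lk_eq h hf.1 he hf.2 hc

omit h in
theorem lkE_cases (c : ℕ) : (lkE D c ∈ D.2.2.2.1 ∧ ((lkE D c).1 = c ∨ (lkE D c).2 = c)) ∨
    lkE D c = (c, c) := by
  unfold lkE
  cases e : D.2.2.2.1.filter fun e => decide (e.1 = c) || decide (e.2 = c) with
  | nil => right; rfl
  | cons f l =>
    left
    have : f ∈ D.2.2.2.1.filter fun e => decide (e.1 = c) || decide (e.2 = c) := by rw [e]; simp
    rw [List.mem_filter, Bool.or_eq_true, decide_eq_true_eq, decide_eq_true_eq] at this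
    exact this

theorem othF_left {e : ℕ × ℕ} (he : e ∈ D.2.2.2.1) : othF D e.1 = e.2 := by
  unfold othF
  rw [lkE_eq h he (Or.inl rfl), if_pos rfl]

theorem othF_right {e : ℕ × ℕ} (he : e ∈ D.2.2.2.1) : othF D e.2 = e.1 := by
  unfold othF
  rw [lkE_eq h he (Or.inr rfl), if_neg (h.llt e he).2.2]

theorem othF_invol (c : ℕ) : othF D (othF D c) = c := by
  rcases lkE_cases (D := D) c with ⟨h1, h2⟩ | h1
  · have h3 := (h.llt _ h1).2.2
    rcases h2 with h2 | h2
    · have e1 : othF D c = (lkE D c).2 := by unfold othF; rw [if_pos h2]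
      rw [e1, othF_right h h1, h2]
    · have e1 : othF D c = (lkE D c).1 := by unfold othF; rw [if_neg (fun e => h3 (e.trans h2.symm))]
      rw [e1, othF_left h h1, h2]
  · have e1 : othF D c = c := by unfold othF; rw [h1, if_pos rfl]
    rw [e1, e1]

theorem wf_of_fok : Blossom.Wf D.1 (cornL D) (ndF D) (lkF D) := by
  refine ⟨?_, ?_, ?_, ?_⟩
  · intro c hc
    obtain ⟨t, ht, hct⟩ := mem_cornL.1 hc
    exact h.lt t ht c hct
  · intro c hc
    obtain ⟨t, ht, hct⟩ := mem_cornL.1 hc
    rw [ndF_eq h ht hct]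
    exact h.lt t ht _ (getD_mem_self h hct)
  · intro c hc
    unfold lkF
    split_ifs with h1
    · exact h1
    · exact hc
  · intro c hc
    by_cases h1 : othF D c ∈ cornL D
    · have e1 : lkF D c = othF D c := by unfold lkF; rw [if_pos h1]
      rw [e1]
      unfold lkF
      rw [othF_invol h, if_pos hc]
    · have e1 : lkF D c = c := by unfold lkF; rw [if_neg h1]
      rw [e1, e1]

/-- The algorithm is correct. -/
theorem frameB_iff : frameB D = true ↔ ∃ w : ℕ → Prop, FSol D w := by
  classical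
  unfold frameB
  rw [Bool.and_eq_true, Bool.and_eq_true, Blossom.frameB_iff (wf_of_fok h), List.all_eq_true,
    List.all_eq_true]
  constructor
  · rintro ⟨h1, h2, w, hw⟩
    refine ⟨fun c => c ∈ cornL D ∧ w c = true, ?_, ?_, ?_⟩
    · rintro c ⟨hc, hwc⟩
      refine ⟨?_, mem_cornL.1 hc⟩
      have := hw.rel c hc
      rw [relF_iff] at this
      exact this.1 hwc
    · intro t ht
      have hne := h1 t ht
      cases t with
      | nil => simp at hne
      | cons c t =>
        have hc : c ∈ cornL D := mem_cornL.2 ⟨_, ht, by simp⟩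
        obtain ⟨d, hd, h3, h4⟩ := hw.ex c hc
        obtain ⟨t', ht', hdt'⟩ := mem_cornL.1 hd
        rw [ndF_eq h ht' hdt', ndF_eq h ht (c := c) (by simp)] at h3
        have h5 : t'.getD 0 0 ∈ t' := getD_mem_self h hdt'
        rw [h3] at h5
        have h6 : t' = c :: t := tri_eq h ht' ht h5 (by simp)
        rw [h6] at hdt'
        refine ⟨d, hdt', ⟨hd, h4⟩, ?_⟩
        rintro d' hd' ⟨hd'C, hwd'⟩
        exact hw.uniq d' hd'C d hd (by rw [ndF_eq h ht hd', ndF_eq h ht hdt']) hwd' h4
    · intro e he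
      by_cases h3 : e.1 ∈ cornL D
      · have h4 := (relF_iff.1 (hw.rel _ h3)).2 e he
        have h5 := h4.1 rfl
        refine ⟨_, _, h5, ?_, ?_⟩
        · simp [h3]
        · by_cases h6 : e.2 ∈ cornL D
          · have e1 : lkF D e.1 = e.2 := by
              unfold lkF
              rw [othF_left h he, if_pos h6]
            simp [h6, e1]
          · simp [h6]
      · by_cases h6 : e.2 ∈ cornL D
        · have h4 := (relF_iff.1 (hw.rel _ h6)).2 e he
          have h5 := h4.2 rfl
          refine ⟨_, _, h5, ?_, ?_⟩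
          · simp [h3]
          · simp [h6]
        · have h7 := h2 e he
          simp only [h3, h6, decide_false, Bool.false_or, decide_eq_true_eq] at h7
          exact ⟨false, false, h7, by simp [h3], by simp [h6]⟩
  · rintro ⟨w, hw1, hw2, hw3⟩
    have hwC : ∀ c, w c → c ∈ cornL D := fun c hc => mem_cornL.2 (hw1 c hc).2
    refine ⟨?_, ?_, fun c => decide (w c), ?_, ?_, ?_⟩
    · intro t ht
      obtain ⟨c, hc, -⟩ := hw2 t ht
      cases t with
      | nil => simp at hc
      | cons b t => rfl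
    · intro e he
      obtain ⟨a, b, hab, ha, hb⟩ := hw3 e he
      by_cases h3 : e.1 ∈ cornL D
      · simp [h3]
      · by_cases h6 : e.2 ∈ cornL D
        · simp [h6]
        · have ha' : a = false := by
            cases a with
            | false => rfl
            | true => exact absurd (hwC _ (ha.2 rfl)) h3
          have hb' : b = false := by
            cases b with
            | false => rfl
            | true => exact absurd (hwC _ (hb.2 rfl)) h6
          subst ha' hb'
          simp [hab]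
    · intro c hc
      obtain ⟨t, ht, hct⟩ := mem_cornL.1 hc
      obtain ⟨d, hd, h3, -⟩ := hw2 t ht
      refine ⟨d, mem_cornL.2 ⟨t, ht, hd⟩, ?_, by simpa using h3⟩
      rw [ndF_eq h ht hd, ndF_eq h ht hct]
    · intro c hc d hd hcd h3 h4
      obtain ⟨t, ht, hct⟩ := mem_cornL.1 hc
      obtain ⟨t', ht', hdt'⟩ := mem_cornL.1 hd
      rw [ndF_eq h ht hct, ndF_eq h ht' hdt'] at hcd
      have h5 : t'.getD 0 0 ∈ t' := getD_mem_self h hdt'
      rw [hcd] at h5
      have h6 : t' = t := tri_eq h ht' ht h5 (getD_mem_self h hct)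
      subst h6
      obtain ⟨a, -, -, h7⟩ := hw2 t' ht
      rw [h7 c hct (by simpa using h3), h7 d hdt' (by simpa using h4)]
    · intro c hc
      rw [relF_iff]
      refine ⟨fun h3 => (hw1 c (by simpa using h3)).1, fun e he => ?_⟩
      obtain ⟨a, b, hab, ha, hb⟩ := hw3 e he
      have hda : decide (w e.1) = a := by
        rw [Bool.eq_iff_iff, decide_eq_true_eq]; exact ha
      have hdb : decide (w e.2) = b := by
        rw [Bool.eq_iff_iff, decide_eq_true_eq]; exact hb
      constructor
      · rintro rfl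
        have e2 : (decide (w (lkF D e.1)) && decide (e.2 ∈ cornL D)) = b := by
          by_cases h6 : e.2 ∈ cornL D
          · have e1 : lkF D e.1 = e.2 := by
              unfold lkF
              rw [othF_left h he, if_pos h6]
            rw [e1, hdb]
            simp [h6]
          · have : ¬ w e.2 := fun h7 => h6 (hwC _ h7)
            rw [← hdb]
            simp [h6, this]
        rw [e2, hda]
        exact hab
      · rintro rfl
        have e2 : (decide (w (lkF D e.2)) && decide (e.1 ∈ cornL D)) = a := by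
          by_cases h6 : e.1 ∈ cornL D
          · have e1 : lkF D e.2 = e.1 := by
              unfold lkF
              rw [othF_right h he, if_pos h6]
            rw [e1, hda]
            simp [h6]
          · have : ¬ w e.1 := fun h7 => h6 (hwC _ h7)
            rw [← hda]
            simp [h6, this]
        rw [e2, hdb]
        exact hab

end

end Pool.Agent.Work.MP_c4d05f_lc.N
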