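import Pool.Agent.Work.PolyTime.Blossom.FramePT
import Pool.Agent.Work.MP_c4d05f_lc.N.R2.Match

/-!
# The matching black box for the frame rule runs in polynomial time
-/

set_option autoImplicit false

namespace Pool.Agent.Work.MP_c4d05f_lc.N

open Pool.Agent.Work.PolyTime
open Pool.Agent.Work.PolyTime.Blossom (ptime_decide ptime_getD ptime_isEmpty)

section

variable {α : Type} [Code α] {D : α → FD} {c : α → ℕ}

@[fun_prop]
theorem ptime_cornL (hD : PTime D) : PTime (fun a => cornL (D a)) := by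
  unfold cornL
  exact PTime.flatMap (f := fun _ t => t) (by fun_prop) PTime.snd

@[fun_prop]
theorem ptime_ndF (hD : PTime D) (hc : PTime c) : PTime (fun a => ndF (D a) (c a)) := by
  unfold ndF
  have h1 : PTime (fun y : α × List ℕ => c y.1) := hc.comp PTime.fst
  have h : PTime (fun a => (D a).2.1.filter fun t => decide (c a ∈ t)) := by
    refine PTime.filter (p := fun a t => decide (c a ∈ t)) (by fun_prop) ?_
    exact ptime_decide (b := fun y : α × List ℕ => memB (c y.1) y.2) (by fun_prop)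
      fun _ => memB_iff
  fun_prop

@[fun_prop]
theorem ptime_lkE (hD : PTime D) (hc : PTime c) : PTime (fun a => lkE (D a) (c a)) := by
  unfold lkE
  have h1 : PTime (fun y : α × (ℕ × ℕ) => c y.1) := hc.comp PTime.fst
  have h : PTime (fun a => (D a).2.2.2.1.filter fun e =>
      decide (e.1 = c a) || decide (e.2 = c a)) := by
    refine PTime.filter (p := fun a (e : ℕ × ℕ) => decide (e.1 = c a) || decide (e.2 = c a))
      (by fun_prop) ?_
    fun_prop
  fun_prop

@[fun_prop]
theorem ptime_othF (hD : PTime D) (hc : PTime c) : PTime (fun a => othF (D a) (c a)) := by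
  unfold othF
  exact PTime.ite (by fun_prop) (by fun_prop) (by fun_prop)

@[fun_prop]
theorem ptime_lkF (hD : PTime D) (hc : PTime c) : PTime (fun a => lkF (D a) (c a)) := by
  unfold lkF
  refine PTime.ite ?_ (by fun_prop) hc
  exact ptime_decide (b := fun a => memB (othF (D a) (c a)) (cornL (D a))) (by fun_prop)
    fun _ => memB_iff

theorem ptime_relF (hD : PTime D) (hc : PTime c) {u v : α → Bool} (hu : PTime u) (hv : PTime v) :
    PTime (fun a => relF (D a) (c a) (u a) (v a)) := by
  unfold relF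
  have h0 : PTime (fun a => decide (c a ∈ (D a).2.2.1)) :=
    ptime_decide (b := fun a => memB (c a) (D a).2.2.1) (by fun_prop) fun _ => memB_iff
  have hD' : PTime (fun y : α × (ℕ × ℕ) => D y.1) := hD.comp PTime.fst
  have hc' : PTime (fun y : α × (ℕ × ℕ) => c y.1) := hc.comp PTime.fst
  have hu' : PTime (fun y : α × (ℕ × ℕ) => u y.1) := hu.comp PTime.fst
  have hv' : PTime (fun y : α × (ℕ × ℕ) => v y.1) := hv.comp PTime.fst
  have h1 : PTime (fun y : α × (ℕ × ℕ) => decide (y.2.1 ∈ cornL (D y.1))) :=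
    ptime_decide (b := fun y : α × (ℕ × ℕ) => memB y.2.1 (cornL (D y.1))) (by fun_prop)
      fun _ => memB_iff
  have h2 : PTime (fun y : α × (ℕ × ℕ) => decide (y.2.2 ∈ cornL (D y.1))) :=
    ptime_decide (b := fun y : α × (ℕ × ℕ) => memB y.2.2 (cornL (D y.1))) (by fun_prop)
      fun _ => memB_iff
  have h3 : PTime (fun y : α × (ℕ × ℕ) => decide ((y.2, u y.1, v y.1 && decide (y.2.2 ∈
      cornL (D y.1))) ∈ (D y.1).2.2.2.2)) :=
    ptime_decide (b := fun y : α × (ℕ × ℕ) => memB (y.2, u y.1, v y.1 && decide (y.2.2 ∈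
      cornL (D y.1))) (D y.1).2.2.2.2) (by fun_prop) fun _ => memB_iff
  have h4 : PTime (fun y : α × (ℕ × ℕ) => decide ((y.2, v y.1 && decide (y.2.1 ∈
      cornL (D y.1)), u y.1) ∈ (D y.1).2.2.2.2)) :=
    ptime_decide (b := fun y : α × (ℕ × ℕ) => memB (y.2, v y.1 && decide (y.2.1 ∈
      cornL (D y.1)), u y.1) (D y.1).2.2.2.2) (by fun_prop) fun _ => memB_iff
  refine PTime.and (by fun_prop) (PTime.all (p := fun a (e : ℕ × ℕ) =>
    (!decide (e.1 = c a) || decide ((e, u a, v a && decide (e.2 ∈ cornL (D a))) ∈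
      (D a).2.2.2.2)) &&
    (!decide (e.2 = c a) || decide ((e, v a && decide (e.1 ∈ cornL (D a)), u a) ∈
      (D a).2.2.2.2))) (by fun_prop) ?_)
  fun_prop

/-- The matching black box runs in polynomial time. -/
@[fun_prop]
theorem ptime_frameB' (hD : PTime D) : PTime (fun a => frameB (D a)) := by
  unfold frameB
  have hD' : PTime (fun y : α × (ℕ × ℕ) => D y.1) := hD.comp PTime.fst
  have h1 : PTime (fun y : α × (ℕ × ℕ) => decide (y.2.1 ∈ cornL (D y.1))) :=
    ptime_decide (b := fun y : α × (ℕ × ℕ) => memB y.2.1 (cornL (D y.1))) (by fun_prop)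
      fun _ => memB_iff
  have h2 : PTime (fun y : α × (ℕ × ℕ) => decide (y.2.2 ∈ cornL (D y.1))) :=
    ptime_decide (b := fun y : α × (ℕ × ℕ) => memB y.2.2 (cornL (D y.1))) (by fun_prop)
      fun _ => memB_iff
  have h3 : PTime (fun y : α × (ℕ × ℕ) => decide ((y.2, false, false) ∈ (D y.1).2.2.2.2)) :=
    ptime_decide (b := fun y : α × (ℕ × ℕ) => memB (y.2, false, false) (D y.1).2.2.2.2)
      (by fun_prop) fun _ => memB_iff
  refine PTime.and (PTime.all (p := fun _ (t : List ℕ) => !t.isEmpty) (by fun_prop) (by fun_prop))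
    (PTime.and (PTime.all (p := fun a (e : ℕ × ℕ) => decide (e.1 ∈ cornL (D a)) ||
    (decide (e.2 ∈ cornL (D a)) || decide ((e, false, false) ∈ (D a).2.2.2.2))) (by fun_prop)
      (by fun_prop)) ?_)
  refine Blossom.ptime_frameB (n := fun a => (D a).1) (C := fun a => cornL (D a))
    (nd := fun a => ndF (D a)) (lk := fun a => lkF (D a)) (R := fun a => relF (D a)) (by fun_prop)
    (by fun_prop) ?_ ?_ ?_
  · exact ptime_ndF (hD.comp PTime.fst) PTime.snd
  · exact ptime_lkF (hD.comp PTime.fst) PTime.snd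
  · exact ptime_relF (D := fun y : α × ℕ × Bool × Bool => D y.1) (c := fun y => y.2.1)
      (hD.comp PTime.fst) (by fun_prop) (by fun_prop) (by fun_prop)

theorem ptime_frameB : PTime frameB := ptime_frameB' PTime.id

end

end Pool.Agent.Work.MP_c4d05f_lc.N
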