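import Pool.Agent.Work.MP_c4d05f_lc.N.Alg.Algo
import Pool.Agent.Work.MP_c4d05f_lc.N.R2.Defs

/-!
# The algorithm with the frame rule

`Env` = (input graph `x`, alive vertices `A`, required black vertices `R`, region `K`, candidate
set `C0`, list `L` of solved regions). `fb` decides the matching problem `FD`, `cand` gives the
candidate sets.
-/

set_option autoImplicit false

namespace Pool.Agent.Work.MP_c4d05f_lc.N

open Pool.Agent.Work.PolyTime Pool.Agent.Work.MP_c4d05f_lc

/-- `x, A, R, K, C0, L`. -/
abbrev Env : Type := Inp × List ℕ × List ℕ × List ℕ × List ℕ × List (List ℕ)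

def triB (x : Inp) (a b c : ℕ) : Bool := adjB x a b && (adjB x b c && adjB x a c)

def sep3B (x : Inp) (a b c : ℕ) : Bool := decide (a = b) || triB x a b c

/-- The corners of `K`. -/
def cnL (e : Env) : List ℕ := e.2.2.2.1.filter fun u => memB u e.2.2.2.2.1

/-- The other vertices of `K`. -/
def otL (e : Env) : List ℕ := e.2.2.2.1.filter fun u => !(memB u e.2.2.2.2.1)

/-- The component of `v` in `K \ C0`. -/
def cmL (e : Env) (v : ℕ) : List ℕ := reachL e.1 (otL e) v

def attB (e : Env) (v c : ℕ) : Bool := (cmL e v).any fun u => adjB e.1 u c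

def mateB (e : Env) (c d : ℕ) : Bool := e.2.1.any fun z => triB e.1 c d z

def lkB (e : Env) (c d : ℕ) : Bool :=
  !(decide (c = d)) && (adjB e.1 c d || (otL e).any fun v => attB e v c && attB e v d)

def condTri (e : Env) : Bool :=
  (cnL e).all fun c => e.2.2.2.2.1.any fun c' => e.2.2.2.2.1.any fun c'' => triB e.1 c c' c''

def condSep (e : Env) : Bool :=
  (otL e).all fun v => e.2.1.any fun a => e.2.1.any fun b => e.2.1.any fun d =>
    sep3B e.1 a b d && (cnL e).all fun c => !(attB e v c) ||
      (decide (c = a) || (decide (c = b) || decide (c = d)))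

def condLk (e : Env) : Bool :=
  (cnL e).all fun c => (cnL e).all fun d => (cnL e).all fun d' =>
    mateB e c d || (mateB e c d' || (!(lkB e c d) || (!(lkB e c d') || decide (d = d'))))

/-- `u` is killed, if the white corners are those in `wl`. -/
def umB (e : Env) (wl : List ℕ) (v u : ℕ) : Bool :=
  (cnL e).any fun c => attB e v c && bif memB c wl then memB u (clL e.1 e.2.1 c)
    else (cmL e v).any fun z => adjB e.1 c z && memB u (clL e.1 e.2.1 z)

/-- The component of `v` without the killed vertices. -/
def rsL (e : Env) (wl : List ℕ) (v : ℕ) : List ℕ := (cmL e v).filter fun u => !(umB e wl v u)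

/-- The component of `v` is in order, if the white corners are those in `wl`. -/
def okM (e : Env) (wl : List ℕ) (v : ℕ) : Bool :=
  ((cmL e v).all fun u => !(umB e wl v u) || (!(reqB e.1 e.2.1 e.2.2.1 e.2.2.2.1 u) &&
    (((cnL e).all fun c => !(memB c wl) || !(adjB e.1 u c)) &&
      (cmL e v).all fun u' => !(umB e wl v u') || !(adjB e.1 u u')))) &&
  (rsL e wl v).all fun u => memB (reachL e.1 (rsL e wl v) u) e.2.2.2.2.2

/-- The triangle of the corner `c` is in `K`. -/
def fullB (e : Env) (c : ℕ) : Bool := (cnL e).any fun d => (cnL e).any fun d' => triB e.1 c d d'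

/-- The corners that may be white. -/
def alL (e : Env) : List ℕ :=
  (cnL e).filter fun c => !(reqB e.1 e.2.1 e.2.2.1 e.2.2.2.1 c) && (fullB e c &&
    (otL e).all fun v => !((cnL e).all fun d => !(attB e v d) ||
      (decide (d = c) || mateB e c d)) || okM e [c] v)

/-- The triangles in `K`. -/
def trisL (e : Env) : List (List ℕ) :=
  (cnL e).flatMap fun c => (cnL e).flatMap fun d =>
    ((cnL e).filter fun d' => decide (c < d) && (decide (d < d') && triB e.1 c d d')).map
      fun d' => [c, d, d']

/-- The links. -/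
def lksL (e : Env) : List (ℕ × ℕ) :=
  (cnL e).flatMap fun c =>
    ((cnL e).filter fun d => decide (c < d) && (!(mateB e c d) && lkB e c d)).map fun d => (c, d)

/-- The relation of a link. -/
def relB (e : Env) (t : (ℕ × ℕ) × Bool × Bool) : Bool :=
  (!(adjB e.1 t.1.1 t.1.2) || !(decide (t.2.1 = t.2.2))) &&
    (otL e).all fun v => !(attB e v t.1.1 && attB e v t.1.2) ||
      okM e ((bif t.2.1 then [t.1.1] else []) ++ (bif t.2.2 then [t.1.2] else [])) v

def relL (e : Env) : List ((ℕ × ℕ) × Bool × Bool) :=
  ((lksL e).flatMap fun g => [(g, true, true), (g, true, false), (g, false, true),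
    (g, false, false)]).filter fun t => relB e t

/-- The components attached only to corners that are black in any case. -/
def constB (e : Env) : Bool :=
  (otL e).all fun v => !((cnL e).all fun d => !(attB e v d) || !(fullB e d)) || okM e [] v

/-- Each corner has a mate in `K`. -/
def prtB (e : Env) : Bool := (cnL e).all fun c => (cnL e).any fun d => mateB e c d

def instF (e : Env) : FD := (e.1.1, trisL e, alL e, lksL e, relL e)

/-- The frame rule for one candidate set. -/
def r2C (fb : FD → Bool) (e : Env) : Bool :=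
  (e.2.2.2.2.1.all fun c => memB c e.2.1) && (condTri e && (condSep e && (condLk e &&
    (prtB e && (constB e && fb (instF e))))))

/-- The frame rule. -/
def r2B (fb : FD → Bool) (cand : Inp → List ℕ → List (List ℕ)) (x : Inp) (A R : List ℕ)
    (L : List (List ℕ)) (K : List ℕ) : Bool :=
  (cand x A).any fun C0 => r2C fb (x, A, R, K, C0, L)

/-- Both rules. -/
def stepB2 (fb : FD → Bool) (cand : Inp → List ℕ → List (List ℕ)) (x : Inp) (A R : List ℕ)
    (L : List (List ℕ)) (K : List ℕ) : Bool :=
  stepB x A R L K || r2B fb cand x A R L K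

/-- The solved regions. -/
def solvedL2 (fb : FD → Bool) (cand : Inp → List ℕ → List (List ℕ)) (w : ℕ) (x : Inp)
    (A R : List ℕ) : List (List ℕ) :=
  lfp (regionsL w x A) (stepB2 fb cand x A R)

/-- All components are solved. -/
def mainB2 (fb : FD → Bool) (cand : Inp → List ℕ → List (List ℕ)) (w : ℕ) (x : Inp)
    (A R : List ℕ) : Bool :=
  A.all fun v => memB (reachL x A v) (solvedL2 fb cand w x A R)

/-- The algorithm. -/
def algoN2 (fb : FD → Bool) (cand : Inp → List ℕ → List (List ℕ)) (w : ℕ) (x : Inp) : Bool :=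
  consB (List.range x.1) (preS x) && mainB2 fb cand w x (preA x) (preR x)

/-! ### Running time -/

section

variable {α : Type} [Code α]

@[fun_prop]
theorem ptime_triB {x : α → Inp} {a b c : α → ℕ} (hx : PTime x) (ha : PTime a) (hb : PTime b)
    (hc : PTime c) : PTime (fun s => triB (x s) (a s) (b s) (c s)) := by
  unfold triB
  fun_prop

@[fun_prop]
theorem ptime_sep3B {x : α → Inp} {a b c : α → ℕ} (hx : PTime x) (ha : PTime a) (hb : PTime b)
    (hc : PTime c) : PTime (fun s => sep3B (x s) (a s) (b s) (c s)) := by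
  unfold sep3B
  fun_prop

@[fun_prop]
theorem ptime_cnL {e : α → Env} (he : PTime e) : PTime (fun s => cnL (e s)) := by
  unfold cnL
  refine PTime.filter (by fun_prop) ?_
  fun_prop

@[fun_prop]
theorem ptime_otL {e : α → Env} (he : PTime e) : PTime (fun s => otL (e s)) := by
  unfold otL
  refine PTime.filter (by fun_prop) ?_
  fun_prop

@[fun_prop]
theorem ptime_cmL {e : α → Env} {v : α → ℕ} (he : PTime e) (hv : PTime v) :
    PTime (fun s => cmL (e s) (v s)) := by
  unfold cmL
  fun_prop

@[fun_prop]
theorem ptime_attB {e : α → Env} {v c : α → ℕ} (he : PTime e) (hv : PTime v) (hc : PTime c) :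
    PTime (fun s => attB (e s) (v s) (c s)) := by
  unfold attB
  refine PTime.any (by fun_prop) ?_
  fun_prop

@[fun_prop]
theorem ptime_mateB {e : α → Env} {c d : α → ℕ} (he : PTime e) (hc : PTime c) (hd : PTime d) :
    PTime (fun s => mateB (e s) (c s) (d s)) := by
  unfold mateB
  refine PTime.any (by fun_prop) ?_
  fun_prop

@[fun_prop]
theorem ptime_lkB {e : α → Env} {c d : α → ℕ} (he : PTime e) (hc : PTime c) (hd : PTime d) :
    PTime (fun s => lkB (e s) (c s) (d s)) := by
  unfold lkB
  refine PTime.and (by fun_prop) (PTime.or (by fun_prop) (PTime.any (by fun_prop) ?_))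
  fun_prop

@[fun_prop]
theorem ptime_condTri {e : α → Env} (he : PTime e) : PTime (fun s => condTri (e s)) := by
  unfold condTri
  refine PTime.all (by fun_prop) (PTime.any (by fun_prop) (PTime.any (by fun_prop) ?_))
  fun_prop

@[fun_prop]
theorem ptime_condSep {e : α → Env} (he : PTime e) : PTime (fun s => condSep (e s)) := by
  unfold condSep
  refine PTime.all (by fun_prop) (PTime.any (by fun_prop) (PTime.any (by fun_prop)
    (PTime.any (by fun_prop) (PTime.and (by fun_prop) (PTime.all (by fun_prop) ?_)))))
  fun_prop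

@[fun_prop]
theorem ptime_condLk {e : α → Env} (he : PTime e) : PTime (fun s => condLk (e s)) := by
  unfold condLk
  refine PTime.all (by fun_prop) (PTime.all (by fun_prop) (PTime.all (by fun_prop) ?_))
  fun_prop

@[fun_prop]
theorem ptime_umB {e : α → Env} {wl : α → List ℕ} {v u : α → ℕ} (he : PTime e) (hw : PTime wl)
    (hv : PTime v) (hu : PTime u) : PTime (fun s => umB (e s) (wl s) (v s) (u s)) := by
  unfold umB
  refine PTime.any (by fun_prop) (PTime.and (by fun_prop) (PTime.cond (by fun_prop)
    (by fun_prop) (PTime.any (by fun_prop) ?_)))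
  fun_prop

@[fun_prop]
theorem ptime_rsL {e : α → Env} {wl : α → List ℕ} {v : α → ℕ} (he : PTime e) (hw : PTime wl)
    (hv : PTime v) : PTime (fun s => rsL (e s) (wl s) (v s)) := by
  unfold rsL
  refine PTime.filter (by fun_prop) ?_
  fun_prop

@[fun_prop]
theorem ptime_okM {e : α → Env} {wl : α → List ℕ} {v : α → ℕ} (he : PTime e) (hw : PTime wl)
    (hv : PTime v) : PTime (fun s => okM (e s) (wl s) (v s)) := by
  unfold okM
  refine PTime.and (PTime.all (by fun_prop) (PTime.or (by fun_prop) (PTime.and (by fun_prop)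
    (PTime.and (PTime.all (by fun_prop) ?_) (PTime.all (by fun_prop) ?_)))))
    (PTime.all (by fun_prop) (PTime.memB ?_ (by fun_prop)))
  · fun_prop
  · fun_prop
  · fun_prop

@[fun_prop]
theorem ptime_fullB {e : α → Env} {c : α → ℕ} (he : PTime e) (hc : PTime c) :
    PTime (fun s => fullB (e s) (c s)) := by
  unfold fullB
  refine PTime.any (by fun_prop) (PTime.any (by fun_prop) ?_)
  fun_prop

@[fun_prop]
theorem ptime_alL {e : α → Env} (he : PTime e) : PTime (fun s => alL (e s)) := by
  unfold alL
  refine PTime.filter (by fun_prop) (PTime.and (by fun_prop) (PTime.and (by fun_prop)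
    (PTime.all (by fun_prop) (PTime.or (PTime.not (PTime.all (by fun_prop) ?_)) ?_))))
  · fun_prop
  · refine ptime_okM (by fun_prop) ?_ (by fun_prop)
    fun_prop

@[fun_prop]
theorem ptime_trisL {e : α → Env} (he : PTime e) : PTime (fun s => trisL (e s)) := by
  unfold trisL
  refine PTime.flatMap (by fun_prop) (PTime.flatMap (by fun_prop) (PTime.map
    (PTime.filter (by fun_prop) ?_) ?_))
  · fun_prop
  · fun_prop

@[fun_prop]
theorem ptime_lksL {e : α → Env} (he : PTime e) : PTime (fun s => lksL (e s)) := by
  unfold lksL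
  refine PTime.flatMap (by fun_prop) (PTime.map (PTime.filter (by fun_prop) ?_) ?_)
  · fun_prop
  · fun_prop

@[fun_prop]
theorem ptime_relB {e : α → Env} {t : α → (ℕ × ℕ) × Bool × Bool} (he : PTime e)
    (ht : PTime t) : PTime (fun s => relB (e s) (t s)) := by
  unfold relB
  refine PTime.and (by fun_prop) (PTime.all (by fun_prop) (PTime.or (by fun_prop) ?_))
  refine ptime_okM (by fun_prop) (PTime.append (PTime.cond (by fun_prop) (by fun_prop)
    (by fun_prop)) (PTime.cond (by fun_prop) (by fun_prop) (by fun_prop))) (by fun_prop)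

@[fun_prop]
theorem ptime_relL {e : α → Env} (he : PTime e) : PTime (fun s => relL (e s)) := by
  unfold relL
  refine PTime.filter (PTime.flatMap (by fun_prop) ?_) ?_
  · fun_prop
  · fun_prop

@[fun_prop]
theorem ptime_constB {e : α → Env} (he : PTime e) : PTime (fun s => constB (e s)) := by
  unfold constB
  refine PTime.all (by fun_prop) (PTime.or (PTime.not (PTime.all (by fun_prop) ?_)) ?_)
  · fun_prop
  · fun_prop

@[fun_prop]
theorem ptime_prtB {e : α → Env} (he : PTime e) : PTime (fun s => prtB (e s)) := by
  unfold prtB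
  refine PTime.all (by fun_prop) (PTime.any (by fun_prop) ?_)
  fun_prop

@[fun_prop]
theorem ptime_instF {e : α → Env} (he : PTime e) : PTime (fun s => instF (e s)) := by
  unfold instF
  fun_prop

theorem ptime_r2C {fb : FD → Bool} (hfb : PTime fb) {e : α → Env} (he : PTime e) :
    PTime (fun s => r2C fb (e s)) := by
  unfold r2C
  refine PTime.and (PTime.all (by fun_prop) ?_) (PTime.and (by fun_prop) (PTime.and (by fun_prop)
    (PTime.and (by fun_prop) (PTime.and (by fun_prop) (PTime.and (by fun_prop) ?_)))))
  · fun_prop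
  · exact hfb.comp (by fun_prop)

theorem ptime_stepB2 {fb : FD → Bool} (hfb : PTime fb) {cand : Inp → List ℕ → List (List ℕ)}
    (hcand : PTime (fun y : Inp × List ℕ => cand y.1 y.2)) {x : α → Inp} {A R : α → List ℕ}
    {L : α → List (List ℕ)} {K : α → List ℕ}
    (hx : PTime x) (hA : PTime A) (hR : PTime R) (hL : PTime L) (hK : PTime K) :
    PTime (fun a => stepB2 fb cand (x a) (A a) (R a) (L a) (K a)) := by
  unfold stepB2 r2B
  refine PTime.or (by fun_prop) (PTime.any ?_ ?_)
  · exact hcand.comp (f := fun a => (x a, A a)) (by fun_prop)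
  · exact ptime_r2C hfb (by fun_prop)

theorem ptime_mainB2 {fb : FD → Bool} (hfb : PTime fb) {cand : Inp → List ℕ → List (List ℕ)}
    (hcand : PTime (fun y : Inp × List ℕ => cand y.1 y.2)) {x : α → Inp} {A R : α → List ℕ}
    (hx : PTime x) (hA : PTime A) (hR : PTime R) (w : ℕ) :
    PTime (fun a => mainB2 fb cand w (x a) (A a) (R a)) := by
  unfold mainB2 solvedL2
  have h : PTime (fun a => lfp (regionsL w (x a) (A a)) (stepB2 fb cand (x a) (A a) (R a))) := by
    refine PTime.lfp (ptime_regionsL hx hA w) ?_
    exact ptime_stepB2 hfb hcand (by fun_prop) (by fun_prop) (by fun_prop) (by fun_prop)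
      (by fun_prop)
  refine PTime.all hA (PTime.memB (by fun_prop) ?_)
  exact h.comp PTime.fst

end

theorem ptime_algoN2 {fb : FD → Bool} (hfb : PTime fb) {cand : Inp → List ℕ → List (List ℕ)}
    (hcand : PTime (fun y : Inp × List ℕ => cand y.1 y.2)) (w : ℕ) :
    PTime (fun x : Inp => algoN2 fb cand w x) := by
  unfold algoN2
  exact PTime.and (by fun_prop) (ptime_mainB2 hfb hcand (by fun_prop) (by fun_prop)
    (by fun_prop) w)

end Pool.Agent.Work.MP_c4d05f_lc.N
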