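import Pool.Agent.Work.MP_c4d05f_lc.N.Alg.Defs2
import Pool.Agent.Work.MP_c4d05f_lc.N.Alg.Glue

/-!
# The frame rule: semantic soundness, and the true colouring is good
-/

set_option autoImplicit false

namespace Pool.Agent.Work.MP_c4d05f_lc.N

open Pool.Agent.Work.MP_c4d05f_lc

variable {V : Type*} {G : SimpleGraph V}

/-- The component of `v` in `K \ C` is in order for the set `β` of black corners. `F` = vertices
that have to be black, `P` = solved. -/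
def OkM (G : SimpleGraph V) (F K C : Set V) (P : Set V → Prop) (β : Set V) (v : V) : Prop :=
  (∀ u ∈ UM G β K C v, u ∉ F ∧ (∀ c ∈ K ∩ C, c ∉ β → ¬ G.Adj u c) ∧
    ∀ u' ∈ UM G β K C v, ¬ G.Adj u u') ∧
  ∀ u ∈ Comp G (K \ C) v \ UM G β K C v,
    P (Comp G (Comp G (K \ C) v \ UM G β K C v) u)

/-- The set `β` of black corners is good. -/
structure GoodW (G : SimpleGraph V) (F K C : Set V) (P : Set V → Prop) (β : Set V) : Prop where
  flag : ∀ c ∈ K ∩ C, c ∉ β → c ∉ F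
  full : ∀ c ∈ K ∩ C, c ∉ β → ∃ d ∈ K ∩ C, ∃ e ∈ K ∩ C, Tri G c d e
  one : ∀ c ∈ K ∩ C, ∀ d ∈ K ∩ C, ∀ e ∈ K ∩ C, Tri G c d e → c ∉ β ∨ d ∉ β ∨ e ∉ β
  two : ∀ c ∈ K ∩ C, ∀ d ∈ K ∩ C, G.Adj c d → SameTri G c d → c ∈ β ∨ d ∈ β
  ne : ∀ c ∈ K ∩ C, ∀ d ∈ K ∩ C, ¬ SameTri G c d → G.Adj c d → (c ∈ β ↔ d ∉ β)
  mate : ∀ c ∈ K ∩ C, ∃ d ∈ K ∩ C, SameTri G c d
  ok : ∀ v ∈ K \ C, OkM G F K C P β v

theorem Tri.unique (hc : Clean G) {c c' c'' d : V} (h : Tri G c c' c'') (hd : SameTri G c d) :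
    d = c' ∨ d = c'' := by
  obtain ⟨z, h1, h2, h3⟩ := hd
  exact hc c c' c'' d z h.1 h.2.2 h.2.1 h1 h3 h2

theorem Tri.same₁ {c c' c'' : V} (h : Tri G c c' c'') : SameTri G c c' := ⟨c'', h⟩

theorem Tri.same₂ {c c' c'' : V} (h : Tri G c c' c'') : SameTri G c c'' :=
  ⟨c', h.2.2, h.2.1.symm, h.1⟩

theorem UM_congr {β K C : Set V} {v w : V} (h : Comp G (K \ C) v = Comp G (K \ C) w) :
    UM G β K C v = UM G β K C w := by
  unfold UM Att
  rw [h]

theorem UM_subset {β K C : Set V} {v : V} : UM G β K C v ⊆ Comp G (K \ C) v := fun _ h => h.1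

/-- Soundness of the frame rule. -/
theorem r2_glue (hc : Clean G) {F K C β : Set V} {P : Set V → Prop}
    (htri : ∀ c ∈ K ∩ C, ∃ c' ∈ C, ∃ c'' ∈ C, Tri G c c' c'') (h : GoodW G F K C P β)
    (hP : ∀ M, P M → M ⊆ K → ∃ γ, Col G M γ ∧
      ∀ u ∈ M, (u ∈ F ∨ ∃ z ∈ K, z ∉ M ∧ G.Adj u z) → u ∈ γ) :
    ∃ γ, Col G K γ ∧ ∀ u ∈ K, u ∈ F → u ∈ γ := by
  set T : Set V := {u | (u ∈ K ∩ C ∧ u ∉ β) ∨ ∃ v ∈ K \ C, u ∈ UM G β K C v} with hT
  set B : Set V := {u | u ∈ K ∩ C ∧ u ∈ β} with hB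
  -- membership in `UM` of the own component
  have hown : ∀ v ∈ K \ C, ∀ u, u ∈ UM G β K C v → u ∈ K \ C ∧ u ∈ UM G β K C u := by
    intro v hv u hu
    have hu1 := UM_subset hu
    refine ⟨comp_subset hv hu1, ?_⟩
    rw [UM_congr (comp_eq hv hu1)]
    exact hu
  refine glue2 (T := T) (B := B) (F := F) ?_ ?_ ?_ ?_ ?_
  · rintro u hu z hz (⟨hu1, hu2⟩ | ⟨v, hv, hu1⟩) (⟨hz1, hz2⟩ | ⟨v', hv', hz1⟩) hadj
    · by_cases hs : SameTri G u z
      · exact (h.two u hu1 z hz1 hadj hs).elim hu2 hz2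
      · exact hu2 ((h.ne u hu1 z hz1 hs hadj).2 hz2)
    · exact ((h.ok v' hv').1 z hz1).2.1 u hu1 hu2 hadj.symm
    · exact ((h.ok v hv).1 u hu1).2.1 z hz1 hz2 hadj
    · obtain ⟨hu2, hu3⟩ := hown v hv u hu1
      obtain ⟨hz2, hz3⟩ := hown v' hv' z hz1
      have hzc : z ∈ Comp G (K \ C) u := adj_mem_comp (self_mem_comp u) hz2 hadj
      rw [UM_congr (comp_eq hu2 hzc)] at hz3
      exact ((h.ok u hu2).1 u hu3).2.2 z hz3 hadj
  · rintro u hu (⟨hu1, hu2⟩ | ⟨v, hv, hu1⟩)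
    · exact h.flag u hu1 hu2
    · exact ((h.ok v hv).1 u hu1).1
  · rintro u hu (⟨hu1, hu2⟩ | ⟨v, hv, hu1⟩) ⟨h3, h4⟩
    · exact hu2 h4
    · exact (hown v hv u hu1).1.2 h3.2
  · rintro u hu ⟨hu1, hu2⟩
    -- it suffices to find a black mate in `K` such that the mates in `K` are it or white
    have key : ∀ p ∈ K ∩ C, p ∈ β → SameTri G u p → (∀ z ∈ K ∩ C, SameTri G u z → z = p ∨ z ∉ β) →
        ∃ p ∈ K, p ∈ B ∧ G.Adj u p ∧ ∀ z ∈ K, G.Adj u z → z = p ∨ z ∈ T := by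
      intro p hp hpb hup hz
      obtain ⟨_, hadj, -⟩ := hup
      refine ⟨p, hp.1, ⟨hp, hpb⟩, hadj, fun z hzK huz => ?_⟩
      by_cases hzC : z ∈ C
      · by_cases hs : SameTri G u z
        · rcases hz z ⟨hzK, hzC⟩ hs with h1 | h1
          · exact Or.inl h1
          · exact Or.inr (Or.inl ⟨⟨hzK, hzC⟩, h1⟩)
        · exact Or.inr (Or.inl ⟨⟨hzK, hzC⟩, (h.ne u hu1 z ⟨hzK, hzC⟩ hs huz).1 hu2⟩)
      · refine Or.inr (Or.inr ⟨z, ⟨hzK, hzC⟩, self_mem_comp z, u, hu1,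
          ⟨z, self_mem_comp z, huz.symm⟩, Or.inr ⟨hu2, z, self_mem_comp z, huz, mem_cl_self z⟩⟩)
    obtain ⟨c', hc', c'', hc'', ht⟩ := htri u hu1
    by_cases h1 : c' ∈ K
    · by_cases h2 : c'' ∈ K
      · have hone := h.one u hu1 c' ⟨h1, hc'⟩ c'' ⟨h2, hc''⟩ ht
        have htwo := h.two c' ⟨h1, hc'⟩ c'' ⟨h2, hc''⟩ ht.2.1 ⟨u, ht.2.1, ht.2.2.symm, ht.1.symm⟩
        rcases htwo with hb | hb
        · refine key c' ⟨h1, hc'⟩ hb ht.same₁ (fun z hz hs => ?_)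
          rcases ht.unique hc hs with rfl | rfl
          · exact Or.inl rfl
          · rcases hone with h3 | h3 | h3
            · exact absurd hu2 h3
            · exact absurd hb h3
            · exact Or.inr h3
        · refine key c'' ⟨h2, hc''⟩ hb ht.same₂ (fun z hz hs => ?_)
          rcases ht.unique hc hs with rfl | rfl
          · rcases hone with h3 | h3 | h3
            · exact absurd hu2 h3
            · exact Or.inr h3
            · exact absurd hb h3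
          · exact Or.inl rfl
      · -- `c'` is the only mate in `K`
        have hb : c' ∈ β := by
          by_contra hb
          obtain ⟨d, hd, e, he, ht'⟩ := h.full c' ⟨h1, hc'⟩ hb
          have ht2 : Tri G c' c'' u := ⟨ht.2.1, ht.2.2.symm, ht.1.symm⟩
          rcases ht'.unique hc ht2.same₁ with h3 | h3
          · exact h2 (h3 ▸ hd.1)
          · exact h2 (h3 ▸ he.1)
        refine key c' ⟨h1, hc'⟩ hb ht.same₁ (fun z hz hs => ?_)
        rcases ht.unique hc hs with rfl | rfl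
        · exact Or.inl rfl
        · exact absurd hz.1 h2
    · have h2 : c'' ∈ K := by
        obtain ⟨d, hd, hs⟩ := h.mate u hu1
        rcases ht.unique hc hs with rfl | rfl
        · exact absurd hd.1 h1
        · exact hd.1
      have hb : c'' ∈ β := by
        by_contra hb
        obtain ⟨d, hd, e, he, ht'⟩ := h.full c'' ⟨h2, hc''⟩ hb
        have ht2 : Tri G c'' c' u := ⟨ht.2.1.symm, ht.1.symm, ht.2.2.symm⟩
        rcases ht'.unique hc ht2.same₁ with h3 | h3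
        · exact h1 (h3 ▸ hd.1)
        · exact h1 (h3 ▸ he.1)
      refine key c'' ⟨h2, hc''⟩ hb ht.same₂ (fun z hz hs => ?_)
      rcases ht.unique hc hs with rfl | rfl
      · exact absurd hz.1 h1
      · exact Or.inl rfl
  · rintro w ⟨hwK, hw⟩
    have hwC : w ∉ C := by
      intro hwC
      by_cases hwb : w ∈ β
      · exact hw (Or.inr ⟨⟨hwK, hwC⟩, hwb⟩)
      · exact hw (Or.inl (Or.inl ⟨⟨hwK, hwC⟩, hwb⟩))
    have hwM : w ∈ K \ C := ⟨hwK, hwC⟩
    have hwU : w ∉ UM G β K C w := fun h1 => hw (Or.inl (Or.inr ⟨w, hwM, h1⟩))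
    have e1 : K \ (T ∪ B) = (K \ C) \ {u | ∃ v ∈ K \ C, u ∈ UM G β K C v} := by
      ext u
      constructor
      · rintro ⟨h1, h2⟩
        have huC : u ∉ C := by
          intro huC
          by_cases hub : u ∈ β
          · exact h2 (Or.inr ⟨⟨h1, huC⟩, hub⟩)
          · exact h2 (Or.inl (Or.inl ⟨⟨h1, huC⟩, hub⟩))
        exact ⟨⟨h1, huC⟩, fun h3 => h2 (Or.inl (Or.inr h3))⟩
      · rintro ⟨h1, h2⟩
        refine ⟨h1.1, ?_⟩
        rintro ((h3 | h3) | h3)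
        · exact h1.2 h3.1.2
        · exact h2 h3
        · exact h1.2 h3.1.2
    have e2 : Comp G (K \ C) w \ {u | ∃ v ∈ K \ C, u ∈ UM G β K C v} =
        Comp G (K \ C) w \ UM G β K C w := by
      ext u
      refine and_congr_right fun hu => not_congr ⟨?_, fun h1 => ⟨w, hwM, h1⟩⟩
      rintro ⟨v, hv, hu1⟩
      have h2 := (hown v hv u hu1).2
      rwa [UM_congr (comp_eq hwM hu)] at h2
    have e3 : Comp G (K \ (T ∪ B)) w = Comp G (Comp G (K \ C) w \ UM G β K C w) w := by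
      rw [e1, ← e2, comp_comp hwM (self_mem_comp w)]
    rw [e3]
    have hw2 : w ∈ Comp G (K \ C) w \ UM G β K C w := ⟨self_mem_comp w, hwU⟩
    have hsub : Comp G (Comp G (K \ C) w \ UM G β K C w) w ⊆ K := fun u hu =>
      (comp_subset hwM (comp_subset hw2 hu).1).1
    obtain ⟨γ, h1, h2⟩ := hP _ ((h.ok w hwM).2 w hw2) hsub
    refine ⟨γ, h1, fun u hu hor => h2 u hu ?_⟩
    rcases hor with h3 | ⟨z, hz, hadj, hzT⟩
    · exact Or.inl h3
    · refine Or.inr ⟨z, hz, fun hzM => ?_, hadj⟩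
      have h4 := comp_subset hw2 hzM
      rcases hzT with ⟨h5, -⟩ | ⟨v, hv, h5⟩
      · exact (comp_subset hwM h4.1).2 h5.2
      · have h6 := (hown v hv z h5).2
        rw [UM_congr (comp_eq hwM h4.1)] at h6
        exact h4.2 h6

/-- The partner of a black corner is in its triangle. -/
theorem black_mate {β : Set V} (hβ : Col G Set.univ β) {c c' c'' p : V} (ht : Tri G c c' c'')
    (hcb : c ∈ β) (hp : p ∈ β) (hadj : G.Adj c p) : p = c' ∨ p = c'' := by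
  rcases hβ.1 c' trivial c'' trivial ht.2.1 with h | h
  · exact Or.inl (black_unique hβ hcb hp h hadj ht.1)
  · exact Or.inr (black_unique hβ hcb hp h hadj ht.2.2)

/-- The true colouring is good. -/
theorem r2_true {β : Set V} (hβ : Col G Set.univ β) {X : Set V} {v₀ : V} (hv₀ : v₀ ∉ dD G β X)
    {C F : Set V} {P : Set V → Prop}
    (htri : ∀ c ∈ Comp G (dD G β X)ᶜ v₀ ∩ C, ∃ c' ∈ C, ∃ c'' ∈ C, Tri G c c' c'')
    (hF : ∀ u ∈ Comp G (dD G β X)ᶜ v₀, u ∈ F → u ∈ β)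
    (hP : ∀ v ∈ Comp G (dD G β X)ᶜ v₀ \ C,
      ∀ u ∈ Comp G (Comp G (dD G β X)ᶜ v₀ \ C) v \ UM G β (Comp G (dD G β X)ᶜ v₀) C v,
        P (Comp G (Comp G (Comp G (dD G β X)ᶜ v₀ \ C) v \
          UM G β (Comp G (dD G β X)ᶜ v₀) C v) u)) :
    GoodW G F (Comp G (dD G β X)ᶜ v₀) C P β := by
  set K := Comp G (dD G β X)ᶜ v₀ with hK
  have hfull : ∀ c ∈ K ∩ C, c ∉ β → ∃ d ∈ K ∩ C, ∃ e ∈ K ∩ C, Tri G c d e := by
    intro c hc hcb
    obtain ⟨c', hc', c'', hc'', ht⟩ := htri c hc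
    refine ⟨c', ⟨?_, hc'⟩, c'', ⟨?_, hc''⟩, ht⟩
    · by_contra hcon
      exact (hβ.1 c trivial c' trivial ht.1).elim hcb (region_nbr hβ hv₀ hc.1 hcon ht.1).1
    · by_contra hcon
      exact (hβ.1 c trivial c'' trivial ht.2.2).elim hcb (region_nbr hβ hv₀ hc.1 hcon ht.2.2).1
  refine ⟨fun c hc hcb hcF => hcb (hF c hc.1 hcF), hfull, ?_, ?_, ?_, ?_, ?_⟩
  · intro c _ d _ e _ ht
    by_contra hcon
    push Not at hcon
    exact ht.2.1.ne (black_unique hβ hcon.1 hcon.2.1 hcon.2.2 ht.1 ht.2.2)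
  · intro c _ d _ hadj _
    exact hβ.1 c trivial d trivial hadj
  · intro c hc d _ hs hadj
    constructor
    · intro hcb hdb
      obtain ⟨c', hc', c'', hc'', ht⟩ := htri c hc
      rcases black_mate hβ ht hcb hdb hadj with rfl | rfl
      · exact hs ht.same₁
      · exact hs ht.same₂
    · intro hdb
      exact (hβ.1 c trivial d trivial hadj).resolve_right hdb
  · intro c hc
    by_cases hcb : c ∈ β
    · obtain ⟨c', hc', c'', hc'', ht⟩ := htri c hc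
      rcases hβ.1 c' trivial c'' trivial ht.2.1 with h | h
      · exact ⟨c', ⟨region_partner hβ hv₀ hc.1 h ht.1, hc'⟩, ht.same₁⟩
      · exact ⟨c'', ⟨region_partner hβ hv₀ hc.1 h ht.2.2, hc''⟩, ht.same₂⟩
    · obtain ⟨d, hd, e, -, ht⟩ := hfull c hc hcb
      exact ⟨d, hd, ht.same₁⟩
  · intro v hv
    have hwhite : ∀ u ∈ UM G β K C v, u ∉ β := by
      rintro u ⟨-, c, hc, -, ⟨hcb, hu⟩ | ⟨hcb, z, hz, hcz, hu⟩⟩
      · exact fun h => hcb ((cl_color hβ hu).1 h)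
      · intro h
        have hzb := (cl_color hβ hu).1 h
        obtain ⟨c', hc', c'', hc'', ht⟩ := htri c hc
        rcases black_mate hβ ht hcb hzb hcz with rfl | rfl
        · exact (comp_subset hv hz).2 hc'
        · exact (comp_subset hv hz).2 hc''
    refine ⟨fun u hu => ⟨fun huF => ?_, fun c hc hcb hadj => ?_, fun u' hu' hadj => ?_⟩, hP v hv⟩
    · exact hwhite u hu (hF u (comp_subset hv (UM_subset hu)).1 huF)
    · exact (hβ.1 u trivial c trivial hadj).elim (hwhite u hu) hcb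
    · exact (hβ.1 u trivial u' trivial hadj).elim (hwhite u hu) (hwhite u' hu')

end Pool.Agent.Work.MP_c4d05f_lc.N
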