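import Pool.Agent.Work.MP_c4d05f_lc.N.R2.Spec

/-!
# The matching instance of the frame rule
-/

set_option autoImplicit false

namespace Pool.Agent.Work.MP_c4d05f_lc.N

open Pool.Agent.Work.PolyTime Pool.Agent.Work.MP_c4d05f_lc

variable {x : Inp} {A R : List ℕ} {L : List (List ℕ)} {K C : Set {u // u ∈ A}} {C0 : List ℕ}

section

variable {V : Type*} {G : SimpleGraph V}

theorem Tri.rot {a b c : V} (h : Tri G a b c) : Tri G b c a := ⟨h.2.1, h.2.2.symm, h.1.symm⟩

theorem Tri.swap {a b c : V} (h : Tri G a b c) : Tri G a c b := ⟨h.2.2, h.2.1.symm, h.1⟩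

theorem SameTri.symm {c d : V} (h : SameTri G c d) : SameTri G d c := by
  obtain ⟨z, h⟩ := h
  exact ⟨z, h.1.symm, h.2.2, h.2.1⟩

theorem Lk.symm {K C : Set V} {c d : V} (h : Lk G K C c d) : Lk G K C d c := by
  obtain ⟨h1, h2⟩ := h
  refine ⟨h1.symm, ?_⟩
  rcases h2 with h2 | ⟨v, hv, h2, h3⟩
  · exact Or.inl h2.symm
  · exact Or.inr ⟨v, hv, h3, h2⟩

theorem SameTri.ne {c d : V} (h : SameTri G c d) : c ≠ d := by
  obtain ⟨z, h⟩ := h
  exact h.1.ne

end

theorem mem_trisL (hA : A.Nodup) (hC : ∀ u : {u // u ∈ A}, (u : ℕ) ∈ C0 ↔ u ∈ C) {t : List ℕ} :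
    t ∈ trisL (En x A R K C0 L) ↔ ∃ c ∈ K ∩ C, ∃ d ∈ K ∩ C, ∃ d' ∈ K ∩ C, (c : ℕ) < (d : ℕ) ∧
      (d : ℕ) < (d' : ℕ) ∧ Tri (GV x A) c d d' ∧ t = [(c : ℕ), (d : ℕ), (d' : ℕ)] := by
  simp only [trisL, cnL_eq hA hC, List.mem_flatMap, List.mem_map, List.mem_filter,
    Bool.and_eq_true, decide_eq_true_eq]
  constructor
  · rintro ⟨c, hc, d, hd, d', ⟨hd', h1, h2, h3⟩, rfl⟩
    obtain ⟨hcA, hc⟩ := mem_LK.1 hc
    obtain ⟨hdA, hd⟩ := mem_LK.1 hd
    obtain ⟨hdA', hd'⟩ := mem_LK.1 hd'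
    exact ⟨⟨c, hcA⟩, hc, ⟨d, hdA⟩, hd, ⟨d', hdA'⟩, hd', h1, h2,
      (triB_iff (a := ⟨c, hcA⟩) (b := ⟨d, hdA⟩) (c := ⟨d', hdA'⟩)).1 h3, rfl⟩
  · rintro ⟨c, hc, d, hd, d', hd', h1, h2, h3, rfl⟩
    exact ⟨c, mem_LK'.2 hc, d, mem_LK'.2 hd, d', ⟨mem_LK'.2 hd', h1, h2, triB_iff.2 h3⟩, rfl⟩

theorem mem_lksL (hA : A.Nodup) (hC : ∀ u : {u // u ∈ A}, (u : ℕ) ∈ C0 ↔ u ∈ C) {g : ℕ × ℕ} :
    g ∈ lksL (En x A R K C0 L) ↔ ∃ c ∈ K ∩ C, ∃ d ∈ K ∩ C, (c : ℕ) < (d : ℕ) ∧
      ¬ SameTri (GV x A) c d ∧ Lk (GV x A) K C c d ∧ g = ((c : ℕ), (d : ℕ)) := by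
  simp only [lksL, cnL_eq hA hC, List.mem_flatMap, List.mem_map, List.mem_filter,
    Bool.and_eq_true, decide_eq_true_eq, bnot_iff]
  constructor
  · rintro ⟨c, hc, d, ⟨hd, h1, h2, h3⟩, rfl⟩
    obtain ⟨hcA, hc⟩ := mem_LK.1 hc
    obtain ⟨hdA, hd⟩ := mem_LK.1 hd
    exact ⟨⟨c, hcA⟩, hc, ⟨d, hdA⟩, hd, h1,
      fun h => h2 ((mateB_iff (c := ⟨c, hcA⟩) (d := ⟨d, hdA⟩)).2 h),
      (lkB_iff hA hC (c := ⟨c, hcA⟩) (d := ⟨d, hdA⟩)).1 h3, rfl⟩
  · rintro ⟨c, hc, d, hd, h1, h2, h3, rfl⟩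
    exact ⟨c, mem_LK'.2 hc, d, ⟨mem_LK'.2 hd, h1, fun h => h2 (mateB_iff.1 h),
      (lkB_iff hA hC).2 h3⟩, rfl⟩

theorem mem_relL {e : Env} {g : ℕ × ℕ} {a b : Bool} :
    (g, a, b) ∈ relL e ↔ g ∈ lksL e ∧ relB e (g, a, b) = true := by
  rw [relL, List.mem_filter, List.mem_flatMap]
  refine and_congr_left fun _ => ?_
  constructor
  · rintro ⟨g', hg', h⟩
    simp only [List.mem_cons, Prod.mk.injEq, List.not_mem_nil, or_false] at h
    rcases h with h | h | h | h <;> exact h.1 ▸ hg'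
  · intro hg
    refine ⟨g, hg, ?_⟩
    cases a <;> cases b <;> simp

/-- A triangle of corners is in the list. -/
theorem exists_tri (hA : A.Nodup) (hC : ∀ u : {u // u ∈ A}, (u : ℕ) ∈ C0 ↔ u ∈ C)
    {c d e : {u // u ∈ A}} (hc : c ∈ K ∩ C) (hd : d ∈ K ∩ C) (he : e ∈ K ∩ C)
    (h : Tri (GV x A) c d e) : ∃ t ∈ trisL (En x A R K C0 L),
      ∀ u : ℕ, u ∈ t ↔ u = c ∨ u = d ∨ u = e := by
  have key : ∀ {c d e : {u // u ∈ A}}, c ∈ K ∩ C → d ∈ K ∩ C → e ∈ K ∩ C →
      Tri (GV x A) c d e → (c : ℕ) < d → (d : ℕ) < e → ∃ t ∈ trisL (En x A R K C0 L),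
      ∀ u : ℕ, u ∈ t ↔ u = c ∨ u = d ∨ u = e := by
    intro c d e hc hd he h h1 h2
    refine ⟨_, (mem_trisL hA hC).2 ⟨c, hc, d, hd, e, he, h1, h2, h, rfl⟩, fun u => ?_⟩
    simp
  have n1 : (c : ℕ) ≠ d := fun h' => h.1.ne (Subtype.ext h')
  have n2 : (d : ℕ) ≠ e := fun h' => h.2.1.ne (Subtype.ext h')
  have n3 : (c : ℕ) ≠ e := fun h' => h.2.2.ne (Subtype.ext h')
  rcases lt_or_gt_of_ne n1 with h1 | h1 <;> rcases lt_or_gt_of_ne n2 with h2 | h2 <;>
    rcases lt_or_gt_of_ne n3 with h3 | h3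
  · exact key hc hd he h h1 h2
  · omega
  · obtain ⟨t, ht, ht'⟩ := key hc he hd h.swap h3 h2
    exact ⟨t, ht, fun u => (ht' u).trans (by tauto)⟩
  · obtain ⟨t, ht, ht'⟩ := key he hc hd h.rot.rot h3 h1
    exact ⟨t, ht, fun u => (ht' u).trans (by tauto)⟩
  · obtain ⟨t, ht, ht'⟩ := key hd hc he h.rot.swap h1 h3
    exact ⟨t, ht, fun u => (ht' u).trans (by tauto)⟩
  · obtain ⟨t, ht, ht'⟩ := key hd he hc h.rot h2 h3
    exact ⟨t, ht, fun u => (ht' u).trans (by tauto)⟩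
  · omega
  · obtain ⟨t, ht, ht'⟩ := key he hd hc h.rot.rot.swap h2 h1
    exact ⟨t, ht, fun u => (ht' u).trans (by tauto)⟩

/-- The corners of a triangle of the list are pairwise mates. -/
theorem tri_mates {t : List ℕ} {c d d' : {u // u ∈ A}} (h : Tri (GV x A) c d d')
    (ht : t = [(c : ℕ), (d : ℕ), (d' : ℕ)]) {u z : {u // u ∈ A}} (hu : (u : ℕ) ∈ t)
    (hz : (z : ℕ) ∈ t) : u = z ∨ SameTri (GV x A) u z := by
  subst ht
  simp only [List.mem_cons, List.not_mem_nil, or_false] at hu hz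
  have e : ∀ {a b : {u // u ∈ A}}, (a : ℕ) = (b : ℕ) → a = b := fun h => Subtype.ext h
  rcases hu with hu | hu | hu <;> rcases hz with hz | hz | hz <;> rw [e hu, e hz]
  · exact Or.inl rfl
  · exact Or.inr h.same₁
  · exact Or.inr h.same₂
  · exact Or.inr h.rot.same₂
  · exact Or.inl rfl
  · exact Or.inr h.rot.same₁
  · exact Or.inr h.rot.rot.same₁
  · exact Or.inr h.rot.rot.same₂
  · exact Or.inl rfl

/-- A mate of an element of a triangle of the list is in the triangle. -/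
theorem mem_of_mate (hc : Clean (GV x A)) {t : List ℕ} {c d d' : {u // u ∈ A}}
    (h : Tri (GV x A) c d d') (ht : t = [(c : ℕ), (d : ℕ), (d' : ℕ)]) {u z : {u // u ∈ A}}
    (hu : (u : ℕ) ∈ t) (hz : SameTri (GV x A) u z) : (z : ℕ) ∈ t := by
  subst ht
  simp only [List.mem_cons, List.not_mem_nil, or_false] at hu ⊢
  have e : ∀ {a b : {u // u ∈ A}}, (a : ℕ) = (b : ℕ) → a = b := fun h => Subtype.ext h
  rcases hu with hu | hu | hu
  · rw [e hu] at hz
    rcases h.unique hc hz with h1 | h1 <;> rw [h1] <;> simp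
  · rw [e hu] at hz
    rcases h.rot.unique hc hz with h1 | h1 <;> rw [h1] <;> simp
  · rw [e hu] at hz
    rcases h.rot.rot.unique hc hz with h1 | h1 <;> rw [h1] <;> simp

theorem LK_nodup (hA : A.Nodup) (M : Set {u // u ∈ A}) : (LK M).Nodup :=
  (LK_sublist M).nodup hA

theorem trisL_nodup (hA : A.Nodup) (hC : ∀ u : {u // u ∈ A}, (u : ℕ) ∈ C0 ↔ u ∈ C) :
    (trisL (En x A R K C0 L)).Nodup := by
  unfold trisL
  rw [cnL_eq hA hC]
  have hn := LK_nodup hA (K ∩ C)
  refine List.nodup_flatMap.2 ⟨fun c _ => List.nodup_flatMap.2 ⟨fun d _ => ?_, ?_⟩, ?_⟩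
  · refine List.Nodup.map ?_ (hn.filter _)
    intro a b hab
    simpa using hab
  · refine List.Nodup.pairwise_of_forall_ne hn (fun d _ d' _ hne => ?_)
    rw [Function.onFun, List.disjoint_left]
    rintro t ht ht'
    simp only [List.mem_map, List.mem_filter] at ht ht'
    obtain ⟨a, -, rfl⟩ := ht
    obtain ⟨b, -, h⟩ := ht'
    simp only [List.cons.injEq] at h
    exact hne h.2.1.symm
  · refine List.Nodup.pairwise_of_forall_ne hn (fun d _ d' _ hne => ?_)
    rw [Function.onFun, List.disjoint_left]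
    rintro t ht ht'
    simp only [List.mem_flatMap, List.mem_map, List.mem_filter] at ht ht'
    obtain ⟨_, _, a, -, rfl⟩ := ht
    obtain ⟨_, _, b, -, h⟩ := ht'
    simp only [List.cons.injEq] at h
    exact hne h.1.symm

theorem lksL_nodup (hA : A.Nodup) (hC : ∀ u : {u // u ∈ A}, (u : ℕ) ∈ C0 ↔ u ∈ C) :
    (lksL (En x A R K C0 L)).Nodup := by
  unfold lksL
  rw [cnL_eq hA hC]
  have hn := LK_nodup hA (K ∩ C)
  refine List.nodup_flatMap.2 ⟨fun c _ => ?_, ?_⟩
  · refine List.Nodup.map ?_ (hn.filter _)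
    intro a b hab
    simpa using hab
  · refine List.Nodup.pairwise_of_forall_ne hn (fun d _ d' _ hne => ?_)
    rw [Function.onFun, List.disjoint_left]
    rintro t ht ht'
    simp only [List.mem_map, List.mem_filter] at ht ht'
    obtain ⟨a, -, rfl⟩ := ht
    obtain ⟨b, -, h⟩ := ht'
    simp only [Prod.mk.injEq] at h
    exact hne h.1.symm

/-- The matching instance is well formed. -/
theorem inst_ok (hc : Clean (GV x A)) (hA : A.Nodup)
    (hC : ∀ u : {u // u ∈ A}, (u : ℕ) ∈ C0 ↔ u ∈ C) (hf : Frame (GV x A) K C) :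
    FOK (instF (En x A R K C0 L)) := by
  have hlt : ∀ c ∈ K ∩ C, (c : ℕ) < x.1 := by
    intro c hc
    obtain ⟨c', -, c'', -, ht⟩ := hf.tri c hc
    have h : (ng x).Adj c c' := ht.1
    rw [ng_adj, adjB_iff] at h
    exact h.1
  refine ⟨?_, ?_, ?_, ?_, ?_⟩
  · intro t ht u hu
    obtain ⟨c, hc, d, hd, d', hd', -, -, -, rfl⟩ := (mem_trisL hA hC).1 ht
    simp only [List.mem_cons, List.not_mem_nil, or_false] at hu
    rcases hu with rfl | rfl | rfl
    · exact hlt c hc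
    · exact hlt d hd
    · exact hlt d' hd'
  · intro t ht
    obtain ⟨c, -, d, -, d', -, h1, h2, -, rfl⟩ := (mem_trisL hA hC).1 ht
    simp only [List.nodup_cons, List.mem_cons, List.not_mem_nil, or_false, not_or,
      List.nodup_nil, and_true, not_false_eq_true]
    omega
  · refine List.Nodup.pairwise_of_forall_ne (trisL_nodup hA hC) (fun t ht t' ht' hne => ?_)
    obtain ⟨c, hc1, d, hd1, d', hd1', h1, h2, h3, e1⟩ := (mem_trisL hA hC).1 ht
    obtain ⟨f, hf1, g, hg1, g', hg1', k1, k2, k3, e2⟩ := (mem_trisL hA hC).1 ht'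
    rw [List.disjoint_left]
    intro u hu hu'
    have huA : u ∈ A := by
      rw [e1] at hu
      simp only [List.mem_cons, List.not_mem_nil, or_false] at hu
      rcases hu with rfl | rfl | rfl
      · exact c.2
      · exact d.2
      · exact d'.2
    have hsub : ∀ z : {u // u ∈ A}, (z : ℕ) ∈ t → (z : ℕ) ∈ t' := by
      intro z hz
      rcases tri_mates h3 e1 (u := ⟨u, huA⟩) hu hz with h | h
      · rw [← h]; exact hu'
      · exact mem_of_mate hc k3 e2 (u := ⟨u, huA⟩) hu' h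
    have hsub' : ∀ z : {u // u ∈ A}, (z : ℕ) ∈ t' → (z : ℕ) ∈ t := by
      intro z hz
      rcases tri_mates k3 e2 (u := ⟨u, huA⟩) hu' hz with h | h
      · rw [← h]; exact hu
      · exact mem_of_mate hc h3 e1 (u := ⟨u, huA⟩) hu h
    have m1 := hsub c (by rw [e1]; simp)
    have m2 := hsub d (by rw [e1]; simp)
    have m3 := hsub d' (by rw [e1]; simp)
    have m4 := hsub' f (by rw [e2]; simp)
    have m5 := hsub' g (by rw [e2]; simp)
    have m6 := hsub' g' (by rw [e2]; simp)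
    rw [e2] at m1 m2 m3
    rw [e1] at m4 m5 m6
    simp only [List.mem_cons, List.not_mem_nil, or_false] at m1 m2 m3 m4 m5 m6
    apply hne
    rw [e1, e2]
    have q1 : (c : ℕ) = f := by omega
    have q2 : (d : ℕ) = g := by omega
    have q3 : (d' : ℕ) = g' := by omega
    rw [q1, q2, q3]
  · intro g hg
    obtain ⟨c, hc, d, hd, h1, -, -, rfl⟩ := (mem_lksL hA hC).1 hg
    exact ⟨hlt c hc, hlt d hd, by dsimp only; omega⟩
  · refine List.Nodup.pairwise_of_forall_ne (lksL_nodup hA hC) (fun g hg g' hg' hne => ?_)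
    obtain ⟨c, hc1, d, hd1, h1, h2, h3, rfl⟩ := (mem_lksL hA hC).1 hg
    obtain ⟨c', hc1', d', hd1', h1', h2', h3', rfl⟩ := (mem_lksL hA hC).1 hg'
    have e : ∀ {a b : {u // u ∈ A}}, (a : ℕ) = (b : ℕ) → a = b := fun h => Subtype.ext h
    refine ⟨fun h => ?_, fun h => ?_, fun h => ?_, fun h => ?_⟩
    · have := e h
      subst this
      rw [hf.link c hc1 d hd1 d' hd1' h2 h2' h3 h3'] at hne
      exact hne rfl
    · have := e h
      subst this
      have h4 := hf.link c hc1 d hd1 c' hc1' h2 (fun h5 => h2' h5.symm) h3 h3'.symm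
      subst h4
      omega
    · have := e h
      subst this
      have h4 := hf.link d hd1 c hc1 d' hd1' (fun h5 => h2 h5.symm) h2' h3.symm h3'
      subst h4
      omega
    · have := e h
      subst this
      have h4 := hf.link d hd1 c hc1 c' hc1' (fun h5 => h2 h5.symm) (fun h5 => h2' h5.symm)
        h3.symm h3'.symm
      subst h4
      exact hne rfl

/-- The condition of `alL` for the components attached to one triangle only. -/
theorem alL_iff (hA : A.Nodup) (hC : ∀ u : {u // u ∈ A}, (u : ℕ) ∈ C0 ↔ u ∈ C)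
    {c : {u // u ∈ A}} : (c : ℕ) ∈ alL (En x A R K C0 L) ↔ c ∈ K ∩ C ∧ c ∉ Fr x A R K ∧
      (∃ d ∈ K ∩ C, ∃ e ∈ K ∩ C, Tri (GV x A) c d e) ∧
      ∀ v ∈ K \ C, (∀ d ∈ K ∩ C, Att (GV x A) K C v d → d = c ∨ SameTri (GV x A) c d) →
        okM (En x A R K C0 L) [(c : ℕ)] v = true := by
  rw [alL, List.mem_filter, cnL_eq hA hC, mem_LK', Bool.and_eq_true, Bool.and_eq_true,
    bnot_iff, fullB_iff hA hC, otL_eq hA hC, List.all_eq_true]
  refine and_congr_right fun _ => and_congr (not_congr reqB_iff') (and_congr_right fun _ => ?_)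
  have hty : ∀ v : {u // u ∈ A}, v ∈ K \ C →
      (((LK (K ∩ C)).all fun d => !(attB (En x A R K C0 L) v d) ||
        (decide (d = (c : ℕ)) || mateB (En x A R K C0 L) c d)) = true ↔
      ∀ d ∈ K ∩ C, Att (GV x A) K C v d → d = c ∨ SameTri (GV x A) c d) := by
    intro v hv
    rw [List.all_eq_true]
    constructor
    · intro h d hd hatt
      have h1 := h d (mem_LK'.2 hd)
      rw [bor_not, Bool.or_eq_true, decide_eq_true_eq, mateB_iff] at h1
      exact (h1 ((attB_iff hA hC hv).2 hatt)).imp (fun h => Subtype.ext h) id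
    · intro h d hd
      obtain ⟨hdA, hd⟩ := mem_LK.1 hd
      rw [bor_not, Bool.or_eq_true, decide_eq_true_eq, mateB_iff (c := c) (d := ⟨d, hdA⟩)]
      intro h1
      exact (h ⟨d, hdA⟩ hd ((attB_iff hA hC (c := ⟨d, hdA⟩) hv).1 h1)).imp
        (fun h => congrArg Subtype.val h) id
  constructor
  · intro h v hv h1
    have h2 := h v (mem_LK'.2 hv)
    rw [bor_not] at h2
    exact h2 ((hty v hv).2 h1)
  · intro h v hv
    obtain ⟨hvA, hv⟩ := mem_LK.1 hv
    rw [bor_not]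
    intro h1
    exact h ⟨v, hvA⟩ hv ((hty ⟨v, hvA⟩ hv).1 h1)

theorem constB_iff (hA : A.Nodup) (hC : ∀ u : {u // u ∈ A}, (u : ℕ) ∈ C0 ↔ u ∈ C) :
    constB (En x A R K C0 L) = true ↔ ∀ v ∈ K \ C,
      (∀ d ∈ K ∩ C, Att (GV x A) K C v d → ¬ ∃ a ∈ K ∩ C, ∃ b ∈ K ∩ C, Tri (GV x A) d a b) →
        okM (En x A R K C0 L) [] v = true := by
  rw [constB, otL_eq hA hC, cnL_eq hA hC, List.all_eq_true]
  have hty : ∀ v : {u // u ∈ A}, v ∈ K \ C →
      (((LK (K ∩ C)).all fun d => !(attB (En x A R K C0 L) v d) ||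
        !(fullB (En x A R K C0 L) d)) = true ↔
      ∀ d ∈ K ∩ C, Att (GV x A) K C v d →
        ¬ ∃ a ∈ K ∩ C, ∃ b ∈ K ∩ C, Tri (GV x A) d a b) := by
    intro v hv
    rw [List.all_eq_true]
    constructor
    · intro h d hd hatt
      have h1 := h d (mem_LK'.2 hd)
      rw [bor_not, bnot_iff, fullB_iff hA hC] at h1
      exact h1 ((attB_iff hA hC hv).2 hatt)
    · intro h d hd
      obtain ⟨hdA, hd⟩ := mem_LK.1 hd
      rw [bor_not, bnot_iff, fullB_iff hA hC (c := ⟨d, hdA⟩)]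
      intro h1
      exact h ⟨d, hdA⟩ hd ((attB_iff hA hC (c := ⟨d, hdA⟩) hv).1 h1)
  constructor
  · intro h v hv h1
    have h2 := h v (mem_LK'.2 hv)
    rw [bor_not] at h2
    exact h2 ((hty v hv).2 h1)
  · intro h v hv
    obtain ⟨hvA, hv⟩ := mem_LK.1 hv
    rw [bor_not]
    intro h1
    exact h ⟨v, hvA⟩ hv ((hty ⟨v, hvA⟩ hv).1 h1)

theorem prtB_iff (hA : A.Nodup) (hC : ∀ u : {u // u ∈ A}, (u : ℕ) ∈ C0 ↔ u ∈ C) :
    prtB (En x A R K C0 L) = true ↔ ∀ c ∈ K ∩ C, ∃ d ∈ K ∩ C, SameTri (GV x A) c d := by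
  rw [prtB, cnL_eq hA hC, List.all_eq_true]
  constructor
  · intro h c hc
    have h1 := h c (mem_LK'.2 hc)
    rw [List.any_eq_true] at h1
    obtain ⟨d, hd, h1⟩ := h1
    obtain ⟨hdA, hd⟩ := mem_LK.1 hd
    exact ⟨⟨d, hdA⟩, hd, (mateB_iff (c := c) (d := ⟨d, hdA⟩)).1 h1⟩
  · intro h c hc
    obtain ⟨hcA, hc⟩ := mem_LK.1 hc
    obtain ⟨d, hd, h1⟩ := h ⟨c, hcA⟩ hc
    rw [List.any_eq_true]
    exact ⟨d, mem_LK'.2 hd, (mateB_iff (c := ⟨c, hcA⟩) (d := d)).2 h1⟩

/-- The list of white corners given by the two values of a link. -/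
theorem mem_wl {c d : ℕ} {a b : Bool} {u : ℕ} :
    u ∈ ((bif a then [c] else []) ++ (bif b then [d] else [])) ↔
      (a = true ∧ u = c) ∨ (b = true ∧ u = d) := by
  cases a <;> cases b <;> simp

theorem relB_iff (hA : A.Nodup) (hC : ∀ u : {u // u ∈ A}, (u : ℕ) ∈ C0 ↔ u ∈ C)
    {c d : {u // u ∈ A}} {a b : Bool} :
    relB (En x A R K C0 L) (((c : ℕ), (d : ℕ)), a, b) = true ↔
      ((GV x A).Adj c d → a ≠ b) ∧ ∀ v ∈ K \ C, Att (GV x A) K C v c → Att (GV x A) K C v d →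
        okM (En x A R K C0 L)
          ((bif a then [(c : ℕ)] else []) ++ (bif b then [(d : ℕ)] else [])) v = true := by
  rw [relB, Bool.and_eq_true, bor_not, bnot_iff, decide_eq_true_eq, otL_eq hA hC,
    List.all_eq_true]
  refine and_congr Iff.rfl ?_
  constructor
  · intro h v hv h1 h2
    have h3 := h v (mem_LK'.2 hv)
    rw [bor_not, Bool.and_eq_true] at h3
    exact h3 ⟨(attB_iff hA hC hv).2 h1, (attB_iff hA hC hv).2 h2⟩
  · intro h v hv
    obtain ⟨hvA, hv⟩ := mem_LK.1 hv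
    rw [bor_not, Bool.and_eq_true]
    rintro ⟨h1, h2⟩
    exact h ⟨v, hvA⟩ hv ((attB_iff hA hC (v := ⟨v, hvA⟩) hv).1 h1)
      ((attB_iff hA hC (v := ⟨v, hvA⟩) hv).1 h2)

/-- Two corners attached to one component and not in a triangle: there are no other corners attached
to this component. -/
theorem att_two {V : Type*} {G : SimpleGraph V} {K C : Set V} (hf : Frame G K C) {v : V}
    (hv : v ∈ K \ C) {c d u : V} (hc : c ∈ K ∩ C) (hd : d ∈ K ∩ C) (hu : u ∈ K ∩ C)
    (hcd : c ≠ d) (hs : ¬ SameTri G c d) (h1 : Att G K C v c) (h2 : Att G K C v d)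
    (h3 : Att G K C v u) : u = c ∨ u = d := by
  obtain ⟨p, q, r, hsep, hall⟩ := hf.sep v hv
  have k1 := hall c hc h1
  have k2 := hall d hd h2
  have k3 := hall u hu h3
  rcases hsep with rfl | ht
  · have k1' : c = p ∨ c = r := by tauto
    have k2' : d = p ∨ d = r := by tauto
    have k3' : u = p ∨ u = r := by tauto
    rcases k1' with rfl | rfl <;> rcases k2' with rfl | rfl <;> rcases k3' with rfl | rfl <;>
      first
      | exact absurd rfl hcd
      | exact Or.inl rfl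
      | exact Or.inr rfl
  · exfalso
    have k12 : SameTri G p q := ht.same₁
    have k13 : SameTri G p r := ht.same₂
    have k23 : SameTri G q r := ⟨p, ht.2.1, ht.2.2.symm, ht.1.symm⟩
    rcases k1 with rfl | rfl | rfl <;> rcases k2 with rfl | rfl | rfl <;>
      first
      | exact hcd rfl
      | exact hs k12
      | exact hs k13
      | exact hs k23
      | exact hs k12.symm
      | exact hs k13.symm
      | exact hs k23.symm

/-- A solution of the matching problem gives a good colouring. -/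
theorem inst_sound (hc : Clean (GV x A)) (hA : A.Nodup)
    (hC : ∀ u : {u // u ∈ A}, (u : ℕ) ∈ C0 ↔ u ∈ C) (hf : Frame (GV x A) K C)
    (hprt : prtB (En x A R K C0 L) = true) (hconst : constB (En x A R K C0 L) = true)
    {w : ℕ → Prop} (hw : FSol (instF (En x A R K C0 L)) w) :
    GoodW (GV x A) (Fr x A R K) K C (fun M => LK M ∈ L) {c | ¬ w c} := by
  obtain ⟨w1, w2, w3⟩ := hw
  change ∀ c, w c → c ∈ alL (En x A R K C0 L) ∧ ∃ t ∈ trisL (En x A R K C0 L), c ∈ t at w1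
  change ∀ t ∈ trisL (En x A R K C0 L), ∃ c ∈ t, w c ∧ ∀ d ∈ t, w d → d = c at w2
  change ∀ e ∈ lksL (En x A R K C0 L), ∃ a b, (e, a, b) ∈ relL (En x A R K C0 L) ∧
    (w e.1 ↔ a = true) ∧ (w e.2 ↔ b = true) at w3
  have hwh : ∀ c : {u // u ∈ A}, c ∉ {c : {u // u ∈ A} | ¬ w c} ↔ w c := by
    intro c
    simp only [Set.mem_ofPred_eq, not_not]
  have hal : ∀ c : {u // u ∈ A}, w c → _ := fun c hcw => (alL_iff hA hC).1 (w1 c hcw).1
  have huniq : ∀ c ∈ K ∩ C, ∀ d ∈ K ∩ C, SameTri (GV x A) c d → w c → w d → False := by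
    intro c hcK d hdK hs hcw hdw
    obtain ⟨-, -, ⟨a, ha, b, hb, ht⟩, -⟩ := hal c hcw
    obtain ⟨t, htL, htm⟩ := exists_tri (R := R) (L := L) (C0 := C0) hA hC hcK ha hb ht
    obtain ⟨s, -, -, hs'⟩ := w2 t htL
    have h1 : (c : ℕ) = s := hs' c ((htm c).2 (Or.inl rfl)) hcw
    have h2 : (d : ℕ) = s := by
      refine hs' d ((htm d).2 ?_) hdw
      rcases ht.unique hc hs with rfl | rfl
      · exact Or.inr (Or.inl rfl)
      · exact Or.inr (Or.inr rfl)
    exact hs.ne (Subtype.ext (h1.trans h2.symm))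
  have hlk : ∀ c ∈ K ∩ C, ∀ d ∈ K ∩ C, ¬ SameTri (GV x A) c d → Lk (GV x A) K C c d →
      ∃ a b, relB (En x A R K C0 L) (((c : ℕ), (d : ℕ)), a, b) = true ∧ (w c ↔ a = true) ∧
        (w d ↔ b = true) := by
    have key : ∀ c ∈ K ∩ C, ∀ d ∈ K ∩ C, (c : ℕ) < d → ¬ SameTri (GV x A) c d →
        Lk (GV x A) K C c d → ∃ a b, relB (En x A R K C0 L) (((c : ℕ), (d : ℕ)), a, b) = true ∧
        (w c ↔ a = true) ∧ (w d ↔ b = true) := by
      intro c hcK d hdK hlt hs hl
      obtain ⟨a, b, h1, h2, h3⟩ := w3 _ ((mem_lksL hA hC).2 ⟨c, hcK, d, hdK, hlt, hs, hl, rfl⟩)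
      exact ⟨a, b, (mem_relL.1 h1).2, h2, h3⟩
    intro c hcK d hdK hs hl
    have hne : (c : ℕ) ≠ d := fun h => hl.1 (Subtype.ext h)
    rcases lt_or_gt_of_ne hne with hlt | hlt
    · exact key c hcK d hdK hlt hs hl
    · obtain ⟨b, a, h1, h2, h3⟩ := key d hdK c hcK hlt (fun h => hs h.symm) hl.symm
      refine ⟨a, b, ?_, h3, h2⟩
      rw [relB_iff hA hC] at h1 ⊢
      refine ⟨fun hadj hab => h1.1 hadj.symm hab.symm, fun v hv ha1 ha2 => ?_⟩
      have h4 := h1.2 v hv ha2 ha1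
      -- the two lists have the same elements
      set β : Set {u // u ∈ A} := {z | ¬ ((z : ℕ) ∈ ((bif b then [(d : ℕ)] else []) ++
        (bif a then [(c : ℕ)] else [])))} with hβ
      have g1 : Agr x K C β ((bif b then [(d : ℕ)] else []) ++
          (bif a then [(c : ℕ)] else [])) v := by
        intro z _ _
        simp only [hβ, Set.mem_ofPred_eq, not_not]
      have g2 : Agr x K C β ((bif a then [(c : ℕ)] else []) ++
          (bif b then [(d : ℕ)] else [])) v := by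
        intro z hz hatt
        rw [g1 z hz hatt, mem_wl, mem_wl, or_comm]
      rw [okM_iff hA hC hv g1] at h4
      rw [okM_iff hA hC hv g2]
      exact h4
  refine ⟨?_, ?_, ?_, ?_, ?_, (prtB_iff hA hC).1 hprt, ?_⟩
  · intro c _ hcb
    exact (hal c ((hwh c).1 hcb)).2.1
  · intro c _ hcb
    exact (hal c ((hwh c).1 hcb)).2.2.1
  · intro c hcK d hdK e heK ht
    obtain ⟨t, htL, htm⟩ := exists_tri (R := R) (L := L) (C0 := C0) hA hC hcK hdK heK ht
    obtain ⟨s, hs, hsw, -⟩ := w2 t htL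
    rcases (htm s).1 hs with rfl | rfl | rfl
    · exact Or.inl ((hwh c).2 hsw)
    · exact Or.inr (Or.inl ((hwh d).2 hsw))
    · exact Or.inr (Or.inr ((hwh e).2 hsw))
  · intro c hcK d hdK _ hs
    by_contra hcon
    rw [not_or] at hcon
    exact huniq c hcK d hdK hs ((hwh c).1 hcon.1) ((hwh d).1 hcon.2)
  · intro c hcK d hdK hs hadj
    obtain ⟨a, b, h1, h2, h3⟩ := hlk c hcK d hdK hs ⟨hadj.ne, Or.inl hadj⟩
    have h4 := ((relB_iff hA hC).1 h1).1 hadj
    rw [hwh, Set.mem_ofPred_eq, h2, h3]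
    cases a <;> cases b <;> simp_all
  · intro v hv
    by_cases hcase : ∀ d ∈ K ∩ C, Att (GV x A) K C v d →
        ¬ ∃ a ∈ K ∩ C, ∃ b ∈ K ∩ C, Tri (GV x A) d a b
    · have h1 := (constB_iff hA hC).1 hconst v hv hcase
      rw [okM_iff hA hC hv (β := {c : {u // u ∈ A} | ¬ w c})] at h1
      · exact h1
      · intro c hcK hatt
        rw [hwh]
        exact ⟨fun h => absurd (hal c h).2.2.1 (hcase c hcK hatt), fun h => by simp at h⟩
    · push Not at hcase
      obtain ⟨c, hcK, hatt, a, ha, b, hb, ht⟩ := hcase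
      by_cases hall : ∀ d ∈ K ∩ C, Att (GV x A) K C v d → d = c ∨ SameTri (GV x A) c d
      · -- one triangle
        obtain ⟨t, htL, htm⟩ := exists_tri (R := R) (L := L) (C0 := C0) hA hC hcK ha hb ht
        obtain ⟨s, hs, hsw, hsu⟩ := w2 t htL
        have hsA : ∃ s' : {u // u ∈ A}, (s' : ℕ) = s ∧ (s' = c ∨ s' = a ∨ s' = b) := by
          rcases (htm s).1 hs with h | h | h
          · exact ⟨c, h.symm, Or.inl rfl⟩
          · exact ⟨a, h.symm, Or.inr (Or.inl rfl)⟩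
          · exact ⟨b, h.symm, Or.inr (Or.inr rfl)⟩
        obtain ⟨s', rfl, hs'⟩ := hsA
        have hin : ∀ d : {u // u ∈ A}, (d = c ∨ SameTri (GV x A) c d) →
            (d = c ∨ d = a ∨ d = b) := by
          rintro d (h | h)
          · exact Or.inl h
          · exact Or.inr (ht.unique hc h)
        have hall' : ∀ d ∈ K ∩ C, Att (GV x A) K C v d → d = s' ∨ SameTri (GV x A) s' d := by
          intro d hd hd'
          have h1 := hin d (hall d hd hd')
          rcases hs' with rfl | rfl | rfl <;> rcases h1 with rfl | rfl | rfl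
          · exact Or.inl rfl
          · exact Or.inr ht.same₁
          · exact Or.inr ht.same₂
          · exact Or.inr ht.rot.same₂
          · exact Or.inl rfl
          · exact Or.inr ht.rot.same₁
          · exact Or.inr ht.rot.rot.same₁
          · exact Or.inr ht.rot.rot.same₂
          · exact Or.inl rfl
        have h1 := (hal s' hsw).2.2.2 v hv hall'
        rw [okM_iff hA hC hv (β := {c : {u // u ∈ A} | ¬ w c})] at h1
        · exact h1
        · intro d hdK hatt'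
          rw [hwh, List.mem_singleton]
          constructor
          · intro hdw
            refine hsu d ((htm d).2 ?_) hdw
            rcases hin d (hall d hdK hatt') with h | h | h
            · exact Or.inl (congrArg _ h)
            · exact Or.inr (Or.inl (congrArg _ h))
            · exact Or.inr (Or.inr (congrArg _ h))
          · intro h
            rw [h]
            exact hsw
      · push Not at hall
        obtain ⟨d, hdK, hatt', hdc, hs⟩ := hall
        obtain ⟨p, q, h1, h2, h3⟩ := hlk c hcK d hdK hs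
          ⟨hdc.symm, Or.inr ⟨v, hv, hatt, hatt'⟩⟩
        have h4 := ((relB_iff hA hC).1 h1).2 v hv hatt hatt'
        rw [okM_iff hA hC hv (β := {c : {u // u ∈ A} | ¬ w c})] at h4
        · exact h4
        · intro z hzK hattz
          rw [hwh, mem_wl]
          rcases att_two hf hv hcK hdK hzK hdc.symm hs hatt hatt' hattz with rfl | rfl
          · rw [h2]
            constructor
            · exact fun h => Or.inl ⟨h, rfl⟩
            · rintro (h | h)
              · exact h.1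
              · exact absurd (Subtype.ext h.2) hdc.symm
          · rw [h3]
            constructor
            · exact fun h => Or.inr ⟨h, rfl⟩
            · rintro (h | h)
              · exact absurd (Subtype.ext h.2) hdc
              · exact h.1

/-- A good colouring gives a solution of the matching problem. -/
theorem inst_complete (hA : A.Nodup)
    (hC : ∀ u : {u // u ∈ A}, (u : ℕ) ∈ C0 ↔ u ∈ C) (hf : Frame (GV x A) K C)
    {β : Set {u // u ∈ A}}
    (hg : GoodW (GV x A) (Fr x A R K) K C (fun M => LK M ∈ L) β) :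
    prtB (En x A R K C0 L) = true ∧ constB (En x A R K C0 L) = true ∧
      ∃ w, FSol (instF (En x A R K C0 L)) w := by
  refine ⟨(prtB_iff hA hC).2 hg.mate, (constB_iff hA hC).2 fun v hv hall => ?_,
    fun n => ∃ h : n ∈ A, (⟨n, h⟩ : {u // u ∈ A}) ∈ K ∩ C ∧ (⟨n, h⟩ : {u // u ∈ A}) ∉ β,
    ?_, ?_, ?_⟩
  · rw [okM_iff hA hC hv (β := β)]
    · exact hg.ok v hv
    · intro c hcK hatt
      exact ⟨fun h => absurd (hg.full c hcK h) (hall c hcK hatt), fun h => by simp at h⟩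
  · rintro n ⟨hnA, hnK, hnb⟩
    obtain ⟨d, hd, e, he, ht⟩ := hg.full _ hnK hnb
    constructor
    · refine (alL_iff hA hC (c := ⟨n, hnA⟩)).2 ⟨hnK, hg.flag _ hnK hnb, ⟨d, hd, e, he, ht⟩, ?_⟩
      intro v hv hall
      rw [okM_iff hA hC hv (β := β)]
      · exact hg.ok v hv
      · intro z hzK hatt
        rw [List.mem_singleton]
        rcases hall z hzK hatt with rfl | h
        · exact ⟨fun _ => rfl, fun _ => hnb⟩
        · constructor
          · intro hzb
            exact ((hg.two _ hnK z hzK (by obtain ⟨_, h, -⟩ := h; exact h) h).elim hnb hzb).elim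
          · intro h'
            exact absurd (Subtype.ext h'.symm) h.ne
    · obtain ⟨t, htL, htm⟩ := exists_tri (R := R) (L := L) (C0 := C0) hA hC hnK hd he ht
      exact ⟨t, htL, (htm n).2 (Or.inl rfl)⟩
  · intro t ht
    obtain ⟨c, hcK, d, hdK, e, heK, -, -, ht3, rfl⟩ := (mem_trisL hA hC).1 ht
    have hu : ∀ s : {u // u ∈ A}, (s : ℕ) ∈ [(c : ℕ), (d : ℕ), (e : ℕ)] → s ∈ K ∩ C → s ∉ β →
        ∃ c' ∈ [(c : ℕ), (d : ℕ), (e : ℕ)],
          (∃ h : c' ∈ A, (⟨c', h⟩ : {u // u ∈ A}) ∈ K ∩ C ∧ (⟨c', h⟩ : {u // u ∈ A}) ∉ β) ∧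
          ∀ d' ∈ [(c : ℕ), (d : ℕ), (e : ℕ)],
            (∃ h : d' ∈ A, (⟨d', h⟩ : {u // u ∈ A}) ∈ K ∩ C ∧
              (⟨d', h⟩ : {u // u ∈ A}) ∉ β) → d' = c' := by
      intro s hs hsK hsb
      refine ⟨s, hs, ⟨s.2, hsK, hsb⟩, ?_⟩
      rintro n hn ⟨hnA, hnK, hnb⟩
      rcases tri_mates ht3 rfl (u := ⟨n, hnA⟩) hn hs with h | h
      · exact congrArg Subtype.val h
      · exact ((hg.two _ hnK s hsK (by obtain ⟨_, h, -⟩ := h; exact h) h).elim hnb hsb).elim
    rcases hg.one c hcK d hdK e heK ht3 with h | h | h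
    · exact hu c (by simp) hcK h
    · exact hu d (by simp) hdK h
    · exact hu e (by simp) heK h
  · intro g hgL
    classical
    obtain ⟨c, hcK, d, hdK, hlt, hs, hl, rfl⟩ := (mem_lksL hA hC).1 hgL
    refine ⟨decide (c ∉ β), decide (d ∉ β), mem_relL.2 ⟨hgL, (relB_iff hA hC).2 ⟨?_, ?_⟩⟩,
      ?_, ?_⟩
    · intro hadj hab
      have h1 := hg.ne c hcK d hdK hs hadj
      by_cases hcb : c ∈ β
      · have h2 := h1.1 hcb
        simp [hcb, h2] at hab
      · have h2 : d ∈ β := by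
          by_contra h2
          exact hcb (h1.2 h2)
        simp [hcb, h2] at hab
    · intro v hv ha1 ha2
      rw [okM_iff hA hC hv (β := β)]
      · exact hg.ok v hv
      · intro z hzK hattz
        rw [mem_wl, decide_eq_true_eq, decide_eq_true_eq]
        rcases att_two hf hv hcK hdK hzK hl.1 hs ha1 ha2 hattz with rfl | rfl
        · constructor
          · exact fun h => Or.inl ⟨h, rfl⟩
          · rintro (h | h)
            · exact h.1
            · exact absurd (Subtype.ext h.2) hl.1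
        · constructor
          · exact fun h => Or.inr ⟨h, rfl⟩
          · rintro (h | h)
            · exact absurd (Subtype.ext h.2) hl.1.symm
            · exact h.1
    · rw [decide_eq_true_eq]
      exact ⟨fun ⟨_, _, h⟩ => h, fun h => ⟨c.2, hcK, h⟩⟩
    · rw [decide_eq_true_eq]
      exact ⟨fun ⟨_, _, h⟩ => h, fun h => ⟨d.2, hdK, h⟩⟩

/-- What the frame rule for one candidate set computes. -/
theorem r2C_iff {fb : FD → Bool} (hfb : ∀ D, FOK D → (fb D = true ↔ ∃ w, FSol D w))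
    (hc : Clean (GV x A)) (hA : A.Nodup)
    (hC : ∀ u : {u // u ∈ A}, (u : ℕ) ∈ C0 ↔ u ∈ C) (hCA : ∀ u ∈ C0, u ∈ A) :
    r2C fb (En x A R K C0 L) = true ↔ Frame (GV x A) K C ∧
      ∃ β, GoodW (GV x A) (Fr x A R K) K C (fun M => LK M ∈ L) β := by
  have hall : (C0.all fun c => memB c A) = true := by
    rw [List.all_eq_true]
    intro c hc
    rw [memB_iff]
    exact hCA c hc
  have hfr := frame_iff (x := x) (R := R) (L := L) (K := K) hA hC hCA
  simp only [r2C, Bool.and_eq_true]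
  constructor
  · rintro ⟨-, h1, h2, h3, h4, h5, h6⟩
    have hf := hfr.1 ⟨h1, h2, h3⟩
    obtain ⟨w, hw⟩ := (hfb _ (inst_ok hc hA hC hf)).1 h6
    exact ⟨hf, _, inst_sound hc hA hC hf h4 h5 hw⟩
  · rintro ⟨hf, β, hg⟩
    obtain ⟨h4, h5, h6⟩ := inst_complete hA hC hf hg
    obtain ⟨h1, h2, h3⟩ := hfr.2 hf
    exact ⟨hall, h1, h2, h3, h4, h5, (hfb _ (inst_ok hc hA hC hf)).2 h6⟩

end Pool.Agent.Work.MP_c4d05f_lc.N
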