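import Pool.Agent.Work.MP_c4d05f_lc.N.R2.Inst
import Pool.Agent.Work.MP_c4d05f_lc.N.Alg.Final

/-!
# Soundness and completeness of the algorithm with the frame rule

`poly_of_haven2`: the final statement (generic in the matching black box `fb` and in the family of
candidates `cand`).
-/

set_option autoImplicit false

namespace Pool.Agent.Work.MP_c4d05f_lc.N

open Pool.Agent.Work.PolyTime Pool.Agent.Work.MP_c4d05f_lc

/-! ### Least fixed points of rules that are monotone on the elements of `U` -/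

theorem lfp_congr {β : Type} {U : List β} {r r' : List β → β → Bool}
    (h : ∀ L, ∀ b ∈ U, r L b = r' L b) : lfp U r = lfp U r' := by
  rw [lfp_eq, lfp_eq]
  have : (fun L => U.filter (r L)) = fun L => U.filter (r' L) := by
    funext L
    exact List.filter_congr (fun b hb => h L b hb)
  rw [this]

theorem mem_lfp' {β : Type} [DecidableEq β] {U : List β} {r : List β → β → Bool}
    (hr : ∀ L L' : List β, (∀ b ∈ L, b ∈ L') → ∀ b ∈ U, r L b = true → r L' b = true) {b : β} :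
    b ∈ lfp U r ↔ b ∈ U ∧ r (lfp U r) b = true := by
  have h1 : lfp U r = lfp U (fun L b => decide (b ∈ U) && r L b) :=
    lfp_congr (fun L b hb => by simp [hb])
  have h2 := mem_lfp (U := U) (r := fun L b => decide (b ∈ U) && r L b) (b := b) (by
    intro L L' h b hb
    rw [Bool.and_eq_true, decide_eq_true_eq] at hb ⊢
    exact ⟨hb.1, hr L L' h b hb.1 hb.2⟩)
  rw [h1, h2, Bool.and_eq_true, decide_eq_true_eq]
  tauto

variable {x : Inp} {A R : List ℕ}

/-- The property of the solved regions. -/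
def Slv (x : Inp) (A R K : List ℕ) : Prop :=
  ∃ β, Col (ng x) (st K) β ∧ ∀ u ∈ K, (u ∈ R ∨ ∃ v ∈ A, (ng x).Adj u v ∧ v ∉ K) → u ∈ β

/-- Soundness of the rule R1. -/
theorem step_sound {L : List (List ℕ)} {K : List ℕ} (hL : ∀ a ∈ L, Slv x A R a)
    (hKA : ∀ u ∈ K, u ∈ A) (hr : stepB x A R L K = true) : Slv x A R K := by
  obtain ⟨y, hy, p, hp, hok, hall⟩ := stepB_iff.1 hr
  obtain ⟨hyp, hok⟩ := okB_iff.1 hok
  set T : Set ℕ := {u | whB x A (y, p) u = true} with hT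
  set B : Set ℕ := {u | p ≠ y ∧ (u = y ∨ u = p)} with hB
  set F : Set ℕ := {u | u ∈ R ∨ ∃ v ∈ A, (ng x).Adj u v ∧ v ∉ K} with hF
  have hS : st (restL x A K [(y, p)]) = st K \ (T ∪ B) := by
    ext u
    simp only [Set.mem_ofPred_eq, mem_restL, List.mem_singleton, forall_eq, blB_iff, Set.mem_sdiff,
      Set.mem_union, hT, hB]
  obtain ⟨β, h1, h2⟩ := glue2 (G := ng x) (K := st K) (T := T) (B := B) (F := F)
    (fun u hu v hv huT hvT => (hok u hu huT).2.2 v hv hvT)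
    (fun u hu huT => (hok u hu huT).1)
    (fun u hu huT => (hok u hu huT).2.1)
    (by
      rintro u hu ⟨hpy, hup⟩
      obtain ⟨hpK, hadj⟩ := hyp.resolve_left hpy
      have key : ∀ z ∈ K, (ng x).Adj y z ∨ (ng x).Adj p z → z ≠ y → z ≠ p → z ∈ T := by
        intro z hz hor hzy hzp
        exact (whB_iff_black (g := (y, p)) hpy).2 ⟨z, hKA z hz, hor, hzy, hzp,
          self_mem_clL (hKA z hz)⟩
      rcases hup with rfl | rfl
      · refine ⟨p, hpK, ⟨hpy, Or.inr rfl⟩, hadj, fun z hz hz' => ?_⟩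
        by_cases hzp : z = p
        · exact Or.inl hzp
        · exact Or.inr (key z hz (Or.inl hz') hz'.ne' hzp)
      · refine ⟨y, hy, ⟨hpy, Or.inl rfl⟩, hadj.symm, fun z hz hz' => ?_⟩
        by_cases hzy : z = y
        · exact Or.inl hzy
        · exact Or.inr (key z hz (Or.inr hz') hzy hz'.ne'))
    (by
      intro w hw
      have hw' : w ∈ restL x A K [(y, p)] := by
        have : w ∈ st (restL x A K [(y, p)]) := by rw [hS]; exact hw
        exact this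
      obtain ⟨β, h1, h2⟩ := hL _ (hall w hw')
      have hcomp : st (reachL x (restL x A K [(y, p)]) w) = Comp (ng x) (st K \ (T ∪ B)) w := by
        rw [← hS]
        ext u
        exact mem_reachL hw'
      rw [hcomp] at h1
      refine ⟨β, h1, fun u hu hor => ?_⟩
      have huC : u ∈ reachL x (restL x A K [(y, p)]) w := by
        have : u ∈ st (reachL x (restL x A K [(y, p)]) w) := by rw [hcomp]; exact hu
        exact this
      refine h2 u huC ?_
      have hout : ∀ v, v ∈ reachL x (restL x A K [(y, p)]) w → v ∈ st K \ (T ∪ B) := by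
        intro v hv
        have : v ∈ st (restL x A K [(y, p)]) := reachL_subset hv
        rwa [hS] at this
      rcases hor with (h | ⟨v, hv, hadj, hvK⟩) | ⟨v, hv, hadj, hvT⟩
      · exact Or.inl h
      · exact Or.inr ⟨v, hv, hadj, fun h => hvK (hout v h).1⟩
      · exact Or.inr ⟨v, hKA v hv, hadj, fun h => (hout v h).2 (Or.inl hvT)⟩)
  exact ⟨β, h1, h2⟩

/-- Completeness of the rule R1. -/
theorem step_true {β : Set {u // u ∈ A}} (hβ : Col (GV x A) Set.univ β) (hA : A.Nodup)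
    (hR : ∀ u : {u // u ∈ A}, (u : ℕ) ∈ R → u ∈ β) {w : ℕ} {K : Set {u // u ∈ A}}
    {y : {u // u ∈ A}} (hreg : Region (GV x A) β w K) (hy : y ∈ K) {L : List (List ℕ)}
    (ih : ∀ v ∈ K \ dd (GV x A) β y, LK (Comp (GV x A) (K \ dd (GV x A) β y) v) ∈ L) :
    stepB x A R L (LK K) = true := by
  classical
  obtain ⟨X, hX, v, hv, rfl⟩ := hreg
  set K := Comp (GV x A) (dD (GV x A) β (X : Set {u // u ∈ A}))ᶜ v with hKdef
  obtain ⟨p, hp⟩ := exists_gs hβ y
  have e : restL x A (LK K) [((y : ℕ), (p : ℕ))] = LK (K \ dd (GV x A) β y) := by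
    have h := restL_LK (K := K) (X := {y}) hβ hA (gs := [((y : ℕ), (p : ℕ))])
      (by
        intro g hg
        rw [List.mem_singleton] at hg
        exact ⟨y, rfl, p, hp, hg⟩)
      (by
        intro z hz
        rw [Set.mem_singleton_iff] at hz
        subst hz
        exact ⟨p, hp, List.mem_singleton.2 rfl⟩)
    have h' : dD (GV x A) β {y} = dd (GV x A) β y := by
      ext u
      simp [dD]
    rw [h'] at h
    exact h
  refine stepB_iff.2 ⟨y, mem_LK'.2 hy, p, p.2, okB_iff.2 ⟨?_, ?_⟩, ?_⟩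
  · rcases hp with ⟨-, h⟩ | ⟨hyb, hpb, hadj⟩
    · exact Or.inl (congrArg Subtype.val h)
    · exact Or.inr ⟨mem_LK'.2 (region_partner hβ hv hy hpb hadj), hadj⟩
  · intro u hu hwh
    obtain ⟨huA, huK⟩ := mem_LK.1 hu
    have hub : (⟨u, huA⟩ : {u // u ∈ A}) ∉ β := white_of_whB hβ hp hwh
    refine ⟨?_, ?_, ?_⟩
    · rintro (h | ⟨z, hz, hadj, hzK⟩)
      · exact hub (hR ⟨u, huA⟩ h)
      · have hadj' : (GV x A).Adj ⟨u, huA⟩ ⟨z, hz⟩ := hadj
        have h1 := region_nbr hβ hv huK (fun h => hzK (mem_LK.2 ⟨hz, h⟩)) hadj'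
        exact (hβ.1 _ trivial _ trivial hadj').elim hub h1.1
    · rintro ⟨hpy, hor⟩
      rcases hp with ⟨-, h⟩ | ⟨hyb, hpb, -⟩
      · exact hpy (congrArg Subtype.val h)
      · rcases hor with h | h
        · exact hub (by rw [show (⟨u, huA⟩ : {u // u ∈ A}) = y from Subtype.ext h]; exact hyb)
        · exact hub (by rw [show (⟨u, huA⟩ : {u // u ∈ A}) = p from Subtype.ext h]; exact hpb)
    · intro z hz hwz hadj
      obtain ⟨hzA, hzK⟩ := mem_LK.1 hz
      have hadj' : (GV x A).Adj ⟨u, huA⟩ ⟨z, hzA⟩ := hadj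
      exact (hβ.1 _ trivial _ trivial hadj').elim hub
        (white_of_whB hβ hp (u := ⟨z, hzA⟩) hwz)
  · rw [e]
    intro z hz
    obtain ⟨hzA, hzK⟩ := mem_LK.1 hz
    have h1 := ih ⟨z, hzA⟩ hzK
    rw [← reachL_LK hA hzK] at h1
    exact h1

theorem region_sublist {w : ℕ} {K : List ℕ} (h : K ∈ regionsL w x A) : K.Sublist A := by
  simp only [regionsL, List.mem_flatMap, List.mem_map] at h
  obtain ⟨gs, -, v, -, rfl⟩ := h
  exact reachL_sublist.trans List.filter_sublist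

theorem eq_LK (hA : A.Nodup) {K : List ℕ} (hK : K.Sublist A) :
    K = LK {u : {u // u ∈ A} | (u : ℕ) ∈ K} := by
  refine sublist_ext hA hK (LK_sublist _) (fun u => ?_)
  rw [mem_LK]
  exact ⟨fun h => ⟨hK.subset h, h⟩, fun ⟨_, h⟩ => h⟩

/-- `Slv` on the type of the alive vertices. -/
theorem slv_LK {K : Set {u // u ∈ A}} : Slv x A R (LK K) ↔
    ∃ γ, Col (GV x A) K γ ∧ ∀ u ∈ K, u ∈ Fr x A R K → u ∈ γ := by
  constructor
  · rintro ⟨β, h1, h2⟩
    refine ⟨{u | (u : ℕ) ∈ β}, ⟨?_, ?_⟩, ?_⟩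
    · intro u hu v hv hadj
      exact h1.1 u (mem_LK'.2 hu) v (mem_LK'.2 hv) hadj
    · intro u hu hub
      obtain ⟨v, hv, hvb, hadj, huni⟩ := h1.2 u (mem_LK'.2 hu) hub
      obtain ⟨hvA, hv⟩ := mem_LK.1 (show v ∈ LK K from hv)
      exact ⟨⟨v, hvA⟩, hv, hvb, hadj, fun z hz hzb huz =>
        Subtype.ext (huni z (mem_LK'.2 hz) hzb huz)⟩
    · intro u hu huF
      refine h2 u (mem_LK'.2 hu) ?_
      rcases huF with h | ⟨z, hadj, hz⟩
      · exact Or.inl h
      · exact Or.inr ⟨z, z.2, hadj, fun h => hz (mem_LK'.1 h)⟩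
  · rintro ⟨γ, h1, h2⟩
    refine ⟨Subtype.val '' γ, ⟨?_, ?_⟩, ?_⟩
    · intro u hu v hv hadj
      obtain ⟨huA, hu⟩ := mem_LK.1 (show u ∈ LK K from hu)
      obtain ⟨hvA, hv⟩ := mem_LK.1 (show v ∈ LK K from hv)
      rcases h1.1 ⟨u, huA⟩ hu ⟨v, hvA⟩ hv hadj with h | h
      · exact Or.inl ⟨_, h, rfl⟩
      · exact Or.inr ⟨_, h, rfl⟩
    · rintro u hu ⟨u', hub, rfl⟩
      obtain ⟨v, hv, hvb, hadj, huni⟩ := h1.2 u' (mem_LK'.1 hu) hub
      refine ⟨v, mem_LK'.2 hv, ⟨v, hvb, rfl⟩, hadj, ?_⟩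
      rintro z hz ⟨z', hzb, rfl⟩ huz
      exact congrArg Subtype.val (huni z' (mem_LK'.1 hz) hzb huz)
    · intro u hu hor
      obtain ⟨huA, hu⟩ := mem_LK.1 hu
      refine ⟨⟨u, huA⟩, h2 _ hu ?_, rfl⟩
      rcases hor with h | ⟨v, hv, hadj, hvK⟩
      · exact Or.inl h
      · exact Or.inr ⟨⟨v, hv⟩, hadj, fun h => hvK (mem_LK.2 ⟨hv, h⟩)⟩

section

variable {fb : FD → Bool} {cand : Inp → List ℕ → List (List ℕ)}

/-- Soundness of the frame rule. -/
theorem r2_sound (hfb : ∀ D, FOK D → (fb D = true ↔ ∃ w, FSol D w)) (hc : Clean (GV x A))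
    (hA : A.Nodup) {L : List (List ℕ)} (hL : ∀ a ∈ L, Slv x A R a) {K C0 : List ℕ}
    (hK : K.Sublist A) (hr : r2C fb (x, A, R, K, C0, L) = true) : Slv x A R K := by
  have hCA : ∀ u ∈ C0, u ∈ A := by
    intro u hu
    simp only [r2C, Bool.and_eq_true, List.all_eq_true, memB_iff] at hr
    exact hr.1 u hu
  have hKe := eq_LK hA hK
  rw [hKe] at hr ⊢
  set Kv : Set {u // u ∈ A} := {u | (u : ℕ) ∈ K} with hKv
  obtain ⟨hf, β, hg⟩ := (r2C_iff (C := {u : {u // u ∈ A} | (u : ℕ) ∈ C0}) hfb hc hA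
    (fun u => Iff.rfl) hCA).1 hr
  rw [slv_LK]
  refine r2_glue hc hf.tri hg ?_
  intro M hM hMK
  obtain ⟨γ, h1, h2⟩ := slv_LK.1 (hL _ hM)
  refine ⟨γ, h1, fun u hu hor => h2 u hu ?_⟩
  rcases hor with (h | ⟨z, hadj, hz⟩) | ⟨z, -, hzM, hadj⟩
  · exact Or.inl h
  · exact Or.inr ⟨z, hadj, fun h => hz (hMK h)⟩
  · exact Or.inr ⟨z, hadj, hzM⟩

theorem solved_sound2 (hfb : ∀ D, FOK D → (fb D = true ↔ ∃ w, FSol D w))
    (hc : Clean (GV x A)) (hA : A.Nodup) {w : ℕ} {K : List ℕ}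
    (h : K ∈ solvedL2 fb cand w x A R) : Slv x A R K := by
  refine lfp_induct (D := fun K : List ℕ => Slv x A R K) ?_ K h
  intro L hL K hK hr
  rw [stepB2, Bool.or_eq_true] at hr
  rcases hr with hr | hr
  · exact step_sound hL (region_sub hK) hr
  · rw [r2B, List.any_eq_true] at hr
    obtain ⟨C0, -, hr⟩ := hr
    exact r2_sound hfb hc hA hL (region_sublist hK) hr

theorem main_sound2 (hfb : ∀ D, FOK D → (fb D = true ↔ ∃ w, FSol D w))
    (hc : Clean (GV x A)) (hA : A.Nodup) {w : ℕ} (h : mainB2 fb cand w x A R = true) :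
    ∃ β, Col (ng x) (st A) β ∧ ∀ u ∈ A, u ∈ R → u ∈ β := by
  simp only [mainB2, List.all_eq_true, memB_iff] at h
  have hS : st A \ (∅ ∪ ∅) = st A := by simp
  obtain ⟨β, h1, h2⟩ := glue2 (G := ng x) (K := st A) (T := ∅) (B := ∅) (F := {u | u ∈ R})
    (fun _ _ _ _ h => h.elim) (fun _ _ h => h.elim) (fun _ _ h => h.elim)
    (fun _ _ h => h.elim)
    (by
      rw [hS]
      intro w hw
      obtain ⟨β, h1, h2⟩ := solved_sound2 hfb hc hA (h w hw)
      have hcomp : st (reachL x A w) = Comp (ng x) (st A) w := by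
        ext u
        exact mem_reachL hw
      rw [hcomp] at h1
      refine ⟨β, h1, fun u hu hor => ?_⟩
      have huC : u ∈ reachL x A w := by
        have : u ∈ st (reachL x A w) := by rw [hcomp]; exact hu
        exact this
      rcases hor with h | ⟨v, -, -, hv⟩
      · exact h2 u huC (Or.inl h)
      · exact hv.elim)
  exact ⟨β, h1, h2⟩

theorem stepB2_mono (hfb : ∀ D, FOK D → (fb D = true ↔ ∃ w, FSol D w))
    (hc : Clean (GV x A)) (hA : A.Nodup) {w : ℕ} (L L' : List (List ℕ))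
    (h : ∀ b ∈ L, b ∈ L') (K : List ℕ) (hK : K ∈ regionsL w x A)
    (hr : stepB2 fb cand x A R L K = true) : stepB2 fb cand x A R L' K = true := by
  rw [stepB2, Bool.or_eq_true] at hr ⊢
  rcases hr with hr | hr
  · exact Or.inl (stepB_mono L L' h K hr)
  · right
    rw [r2B, List.any_eq_true] at hr ⊢
    obtain ⟨C0, hC0, hr⟩ := hr
    refine ⟨C0, hC0, ?_⟩
    have hCA : ∀ u ∈ C0, u ∈ A := by
      intro u hu
      simp only [r2C, Bool.and_eq_true, List.all_eq_true, memB_iff] at hr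
      exact hr.1 u hu
    have hKe := eq_LK hA (region_sublist hK)
    rw [hKe] at hr ⊢
    set Kv : Set {u // u ∈ A} := {u | (u : ℕ) ∈ K} with hKv
    obtain ⟨hf, β, hg⟩ := (r2C_iff (C := {u : {u // u ∈ A} | (u : ℕ) ∈ C0}) hfb hc hA
      (fun u => Iff.rfl) hCA).1 hr
    refine (r2C_iff (C := {u : {u // u ∈ A} | (u : ℕ) ∈ C0}) hfb hc hA
      (fun u => Iff.rfl) hCA).2 ⟨hf, β, hg.flag, hg.full, hg.one, hg.two, hg.ne, hg.mate, ?_⟩
    intro v hv
    exact ⟨(hg.ok v hv).1, fun u hu => h _ ((hg.ok v hv).2 u hu)⟩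

/-- Derivations give solved regions. -/
theorem der2_solved (hfb : ∀ D, FOK D → (fb D = true ↔ ∃ w, FSol D w))
    (hc : Clean (GV x A)) (hA : A.Nodup) {β : Set {u // u ∈ A}}
    (hβ : Col (GV x A) Set.univ β) (hR : ∀ u : {u // u ∈ A}, (u : ℕ) ∈ R → u ∈ β)
    {𝒞 : Set (Set {u // u ∈ A})}
    (hcand : ∀ C ∈ 𝒞, ∃ C0 ∈ cand x A, (∀ u ∈ C0, u ∈ A) ∧
      ∀ u : {u // u ∈ A}, (u : ℕ) ∈ C0 ↔ u ∈ C) {w : ℕ}
    {K : Set {u // u ∈ A}} (hK : Der2 (GV x A) β 𝒞 w K) :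
    LK K ∈ solvedL2 fb cand w x A R := by
  induction hK with
  | @step K y hreg hy _ ih =>
    refine (mem_lfp' (fun L L' h K hK => stepB2_mono (w := w) hfb hc hA L L' h K hK)).2
      ⟨region_mem hβ hA hreg, ?_⟩
    rw [stepB2, Bool.or_eq_true]
    exact Or.inl (step_true hβ hA hR hreg hy ih)
  | @frame K C hreg hC _ hf _ ih =>
    refine (mem_lfp' (fun L L' h K hK => stepB2_mono (w := w) hfb hc hA L L' h K hK)).2
      ⟨region_mem hβ hA hreg, ?_⟩
    rw [stepB2, Bool.or_eq_true]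
    right
    obtain ⟨C0, hC0, hCA, hCe⟩ := hcand C hC
    rw [r2B, List.any_eq_true]
    refine ⟨C0, hC0, (r2C_iff hfb hc hA hCe hCA).2 ⟨hf, β, ?_⟩⟩
    obtain ⟨X, hX, v, hv, rfl⟩ := hreg
    refine r2_true hβ hv hf.tri ?_ ih
    intro u hu huF
    rcases huF with h | ⟨z, hadj, hz⟩
    · exact hR u h
    · exact (hβ.1 u trivial z trivial hadj).resolve_right (region_nbr hβ hv hu hz hadj).1

theorem main_complete2 (hfb : ∀ D, FOK D → (fb D = true ↔ ∃ w, FSol D w))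
    (hc : Clean (GV x A)) (hA : A.Nodup) {β : Set {u // u ∈ A}}
    (hβ : Col (GV x A) Set.univ β) (hR : ∀ u : {u // u ∈ A}, (u : ℕ) ∈ R → u ∈ β)
    {𝒞 : Set (Set {u // u ∈ A})}
    (hcand : ∀ C ∈ 𝒞, ∃ C0 ∈ cand x A, (∀ u ∈ C0, u ∈ A) ∧
      ∀ u : {u // u ∈ A}, (u : ℕ) ∈ C0 ↔ u ∈ C) {w : ℕ}
    (hD : ∀ v, Der2 (GV x A) β 𝒞 w (Comp (GV x A) Set.univ v)) :
    mainB2 fb cand w x A R = true := by
  simp only [mainB2, List.all_eq_true, memB_iff]
  intro v hv
  have h := der2_solved (R := R) hfb hc hA hβ hR hcand (hD ⟨v, hv⟩)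
  rw [← reachL_LK hA (Set.mem_univ _), LK_univ] at h
  exact h

/-- **Final statement of GOAL A.** -/
theorem poly_of_haven2 {P : ∀ V : Type, SimpleGraph V → Prop}
    (hP : ∀ (V W : Type) (G : SimpleGraph V) (H : SimpleGraph W), Nonempty (H ↪g G) → P V G →
      P W H)
    {𝒞 : ∀ V : Type, SimpleGraph V → Set (Set V)}
    (hcT : PTime (fun y : Inp × List ℕ => cand y.1 y.2))
    (hcand : ∀ (x : Inp) (A : List ℕ), A.Nodup → ∀ C ∈ 𝒞 _ (GV x A), ∃ C0 ∈ cand x A,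
      (∀ u ∈ C0, u ∈ A) ∧ ∀ u : {u // u ∈ A}, (u : ℕ) ∈ C0 ↔ u ∈ C)
    (hfT : PTime fb) (hfb : ∀ D, FOK D → (fb D = true ↔ ∃ w, FSol D w))
    {w : ℕ} (hH : HavenThm2 P 𝒞 w) :
    PTime (fun x : Inp => algoN2 fb cand w x) ∧ ∀ x : Inp, P (Fin x.1) (graphOf x.1 x.2) →
      (algoN2 fb cand w x = true ↔ ∃ M, IsDIM (graphOf x.1 x.2) M) := by
  refine ⟨ptime_algoN2 hfT hcT w, fun x hx => ?_⟩
  rw [exists_isDIM_iff, ← col_iff]
  constructor
  · intro h
    rw [algoN2, Bool.and_eq_true] at h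
    obtain ⟨β, h1, h2⟩ := main_sound2 hfb (pre_clean h.1) preA_nodup h.2
    exact pre_extend h.1 h1 h2
  · rintro ⟨β, hβ⟩
    rw [algoN2, Bool.and_eq_true]
    have hc := pre_cons hβ
    refine ⟨hc, ?_⟩
    have hβ' := pre_restrict hβ
    refine main_complete2 (β := {v : {u // u ∈ preA x} | (v : ℕ) ∈ β}) hfb (pre_clean hc)
      preA_nodup (col_GV hβ') ?_ (hcand x (preA x) preA_nodup) ?_
    · intro u hu
      exact (pre_facts hβ (mem_preR.1 hu).2.1).2 rfl
    · have : Fintype {u // u ∈ preA x} := Fintype.ofFinite _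
      exact hH _ _ _ (hP _ _ _ _ (embed_GV x) hx) (pre_clean hc) (col_GV hβ')

end

end Pool.Agent.Work.MP_c4d05f_lc.N
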