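import Pool.Agent.Work.MP_c4d05f_lc.N.Alg.Complete
import Pool.Agent.Work.MP_c4d05f_lc.N.R2.Algo
import Pool.Agent.Work.MP_c4d05f_lc.N.R2.Good

/-!
# What the parts of the frame rule compute
-/

set_option autoImplicit false

namespace Pool.Agent.Work.MP_c4d05f_lc.N

open Pool.Agent.Work.PolyTime Pool.Agent.Work.MP_c4d05f_lc

variable {x : Inp} {A R : List ℕ} {L : List (List ℕ)} {K C : Set {u // u ∈ A}} {C0 : List ℕ}

/-- The environment of the region `K`. -/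
noncomputable abbrev En (x : Inp) (A R : List ℕ) (K : Set {u // u ∈ A}) (C0 : List ℕ)
    (L : List (List ℕ)) : Env := (x, A, R, LK K, C0, L)

theorem memB_not {β : Type} [DecidableEq β] {a : β} {l : List β} :
    (!(memB a l)) = true ↔ a ∉ l := by
  rw [Bool.not_eq_true', ← Bool.not_eq_true, memB_iff]

theorem triB_iff {a b c : {u // u ∈ A}} : triB x a b c = true ↔ Tri (GV x A) a b c := by
  simp only [triB, Bool.and_eq_true, Tri, SimpleGraph.comap_adj, ng_adj]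

theorem cnL_eq (hA : A.Nodup) (hC : ∀ u : {u // u ∈ A}, (u : ℕ) ∈ C0 ↔ u ∈ C) :
    cnL (En x A R K C0 L) = LK (K ∩ C) := by
  refine sublist_ext hA (List.filter_sublist.trans (LK_sublist K)) (LK_sublist _) (fun u => ?_)
  rw [cnL, List.mem_filter, mem_LK, mem_LK, memB_iff]
  constructor
  · rintro ⟨⟨h, h1⟩, h2⟩
    exact ⟨h, h1, (hC ⟨u, h⟩).1 h2⟩
  · rintro ⟨h, h1, h2⟩
    exact ⟨⟨h, h1⟩, (hC ⟨u, h⟩).2 h2⟩

theorem otL_eq (hA : A.Nodup) (hC : ∀ u : {u // u ∈ A}, (u : ℕ) ∈ C0 ↔ u ∈ C) :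
    otL (En x A R K C0 L) = LK (K \ C) := by
  refine sublist_ext hA (List.filter_sublist.trans (LK_sublist K)) (LK_sublist _) (fun u => ?_)
  rw [otL, List.mem_filter, mem_LK, mem_LK, memB_not]
  constructor
  · rintro ⟨⟨h, h1⟩, h2⟩
    exact ⟨h, h1, fun h3 => h2 ((hC ⟨u, h⟩).2 h3)⟩
  · rintro ⟨h, h1, h2⟩
    exact ⟨⟨h, h1⟩, fun h3 => h2 ((hC ⟨u, h⟩).1 h3)⟩

theorem cmL_eq (hA : A.Nodup) (hC : ∀ u : {u // u ∈ A}, (u : ℕ) ∈ C0 ↔ u ∈ C)
    {v : {u // u ∈ A}} (hv : v ∈ K \ C) :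
    cmL (En x A R K C0 L) v = LK (Comp (GV x A) (K \ C) v) := by
  rw [cmL, otL_eq hA hC]
  exact reachL_LK hA hv

theorem attB_iff (hA : A.Nodup) (hC : ∀ u : {u // u ∈ A}, (u : ℕ) ∈ C0 ↔ u ∈ C)
    {v c : {u // u ∈ A}} (hv : v ∈ K \ C) :
    attB (En x A R K C0 L) v c = true ↔ Att (GV x A) K C v c := by
  rw [attB, cmL_eq hA hC hv, List.any_eq_true]
  constructor
  · rintro ⟨u, hu, hadj⟩
    obtain ⟨h, hu⟩ := mem_LK.1 hu
    exact ⟨⟨u, h⟩, hu, hadj⟩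
  · rintro ⟨u, hu, hadj⟩
    exact ⟨u, mem_LK'.2 hu, hadj⟩

theorem mateB_iff {c d : {u // u ∈ A}} :
    mateB (En x A R K C0 L) c d = true ↔ SameTri (GV x A) c d := by
  rw [mateB, List.any_eq_true]
  constructor
  · rintro ⟨z, hz, h⟩
    exact ⟨⟨z, hz⟩, (triB_iff (a := c) (b := d) (c := ⟨z, hz⟩)).1 h⟩
  · rintro ⟨z, h⟩
    exact ⟨z, z.2, triB_iff.2 h⟩

theorem lkB_iff (hA : A.Nodup) (hC : ∀ u : {u // u ∈ A}, (u : ℕ) ∈ C0 ↔ u ∈ C)
    {c d : {u // u ∈ A}} :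
    lkB (En x A R K C0 L) c d = true ↔ Lk (GV x A) K C c d := by
  rw [lkB, otL_eq hA hC, Bool.and_eq_true, Bool.or_eq_true, Bool.not_eq_true',
    decide_eq_false_iff_not, List.any_eq_true, Lk]
  refine and_congr (not_congr ⟨fun h => Subtype.ext h, fun h => congrArg _ h⟩)
    (or_congr Iff.rfl ?_)
  constructor
  · rintro ⟨v, hv, h⟩
    obtain ⟨h1, hv⟩ := mem_LK.1 hv
    rw [Bool.and_eq_true] at h
    exact ⟨⟨v, h1⟩, hv, (attB_iff hA hC (v := ⟨v, h1⟩) hv).1 h.1,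
      (attB_iff hA hC (v := ⟨v, h1⟩) hv).1 h.2⟩
  · rintro ⟨v, hv, h1, h2⟩
    refine ⟨v, mem_LK'.2 hv, ?_⟩
    rw [Bool.and_eq_true]
    exact ⟨(attB_iff hA hC hv).2 h1, (attB_iff hA hC hv).2 h2⟩

theorem fullB_iff (hA : A.Nodup) (hC : ∀ u : {u // u ∈ A}, (u : ℕ) ∈ C0 ↔ u ∈ C)
    {c : {u // u ∈ A}} :
    fullB (En x A R K C0 L) c = true ↔ ∃ d ∈ K ∩ C, ∃ e ∈ K ∩ C, Tri (GV x A) c d e := by
  rw [fullB, cnL_eq hA hC, List.any_eq_true]
  constructor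
  · rintro ⟨d, hd, h⟩
    obtain ⟨h1, hd⟩ := mem_LK.1 hd
    rw [List.any_eq_true] at h
    obtain ⟨e, he, h⟩ := h
    obtain ⟨h2, he⟩ := mem_LK.1 he
    exact ⟨⟨d, h1⟩, hd, ⟨e, h2⟩, he, (triB_iff (a := c) (b := ⟨d, h1⟩) (c := ⟨e, h2⟩)).1 h⟩
  · rintro ⟨d, hd, e, he, h⟩
    refine ⟨d, mem_LK'.2 hd, ?_⟩
    rw [List.any_eq_true]
    exact ⟨e, mem_LK'.2 he, triB_iff.2 h⟩

/-- The list `wl` of white corners agrees with the set `β` of black corners, as far as the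
component of `v` is concerned. -/
def Agr (x : Inp) (K C β : Set {u // u ∈ A}) (wl : List ℕ) (v : {u // u ∈ A}) : Prop :=
  ∀ c ∈ K ∩ C, Att (GV x A) K C v c → (c ∉ β ↔ (c : ℕ) ∈ wl)

theorem umB_iff (hA : A.Nodup) (hC : ∀ u : {u // u ∈ A}, (u : ℕ) ∈ C0 ↔ u ∈ C)
    {v : {u // u ∈ A}} (hv : v ∈ K \ C) {β : Set {u // u ∈ A}} {wl : List ℕ}
    (hw : Agr x K C β wl v) {u : {u // u ∈ A}} (hu : u ∈ Comp (GV x A) (K \ C) v) :
    umB (En x A R K C0 L) wl v u = true ↔ u ∈ UM (GV x A) β K C v := by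
  rw [umB, cnL_eq hA hC, List.any_eq_true]
  have hcond : ∀ c ∈ K ∩ C, Att (GV x A) K C v c →
      ((bif memB (c : ℕ) wl then memB (u : ℕ) (clL x A c)
        else (cmL (En x A R K C0 L) v).any fun z => adjB x c z && memB (u : ℕ) (clL x A z)) = true ↔
      ((c ∉ β ∧ u ∈ cl (GV x A) c) ∨
        (c ∈ β ∧ ∃ z ∈ Comp (GV x A) (K \ C) v, (GV x A).Adj c z ∧ u ∈ cl (GV x A) z))) := by
    intro c hc hatt
    have h1 := hw c hc hatt
    by_cases hcw : (c : ℕ) ∈ wl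
    · have h2 : memB (c : ℕ) wl = true := memB_iff.2 hcw
      have h3 := h1.2 hcw
      rw [h2, cond_true, memB_iff, mem_clL_iff]
      exact ⟨fun h => Or.inl ⟨h3, h⟩, fun h => by
        rcases h with h | h
        · exact h.2
        · exact absurd h.1 h3⟩
    · have h2 : memB (c : ℕ) wl = false := by
        rw [← Bool.not_eq_true, memB_iff]
        exact hcw
      have h3 : c ∈ β := by
        by_contra hcon
        exact hcw (h1.1 hcon)
      rw [h2, cond_false, cmL_eq hA hC hv, List.any_eq_true]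
      constructor
      · rintro ⟨z, hz, h⟩
        obtain ⟨hzA, hz⟩ := mem_LK.1 hz
        rw [Bool.and_eq_true, memB_iff] at h
        exact Or.inr ⟨h3, ⟨z, hzA⟩, hz, h.1, (mem_clL_iff (v := ⟨z, hzA⟩)).1 h.2⟩
      · rintro (h | ⟨-, z, hz, h⟩)
        · exact absurd h3 h.1
        · refine ⟨z, mem_LK'.2 hz, ?_⟩
          rw [Bool.and_eq_true, memB_iff]
          exact ⟨h.1, mem_clL_iff.2 h.2⟩
  constructor
  · rintro ⟨c, hc, h⟩
    obtain ⟨hcA, hc⟩ := mem_LK.1 hc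
    rw [Bool.and_eq_true] at h
    have hatt := (attB_iff hA hC (c := ⟨c, hcA⟩) hv).1 h.1
    exact ⟨hu, ⟨c, hcA⟩, hc, hatt, (hcond ⟨c, hcA⟩ hc hatt).1 h.2⟩
  · rintro ⟨-, c, hc, hatt, h⟩
    refine ⟨c, mem_LK'.2 hc, ?_⟩
    rw [Bool.and_eq_true]
    exact ⟨(attB_iff hA hC hv).2 hatt, (hcond c hc hatt).2 h⟩

/-- The vertices of `K` that have to be black. -/
def Fr (x : Inp) (A R : List ℕ) (K : Set {u // u ∈ A}) : Set {u // u ∈ A} :=
  {u | (u : ℕ) ∈ R ∨ ∃ z, (GV x A).Adj u z ∧ z ∉ K}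

theorem reqB_iff' {u : {u // u ∈ A}} : reqB x A R (LK K) u = true ↔ u ∈ Fr x A R K := by
  rw [reqB_iff]
  refine or_congr Iff.rfl ?_
  constructor
  · rintro ⟨z, hz, hadj, hzK⟩
    exact ⟨⟨z, hz⟩, hadj, fun h => hzK (mem_LK.2 ⟨hz, h⟩)⟩
  · rintro ⟨z, hadj, hzK⟩
    exact ⟨z, z.2, hadj, fun h => hzK (mem_LK'.1 h)⟩

theorem rsL_eq (hA : A.Nodup) (hC : ∀ u : {u // u ∈ A}, (u : ℕ) ∈ C0 ↔ u ∈ C)
    {v : {u // u ∈ A}} (hv : v ∈ K \ C) {β : Set {u // u ∈ A}} {wl : List ℕ}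
    (hw : Agr x K C β wl v) : rsL (En x A R K C0 L) wl v =
      LK (Comp (GV x A) (K \ C) v \ UM (GV x A) β K C v) := by
  refine sublist_ext hA (List.filter_sublist.trans ?_) (LK_sublist _) (fun u => ?_)
  · rw [cmL_eq hA hC hv]
    exact LK_sublist _
  · rw [rsL, List.mem_filter, cmL_eq hA hC hv, mem_LK, mem_LK, Bool.not_eq_true',
      ← Bool.not_eq_true]
    constructor
    · rintro ⟨⟨h, h1⟩, h2⟩
      exact ⟨h, h1, fun h3 => h2 ((umB_iff hA hC hv hw (u := ⟨u, h⟩) h1).2 h3)⟩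
    · rintro ⟨h, h1, h2⟩
      exact ⟨⟨h, h1⟩, fun h3 => h2 ((umB_iff hA hC hv hw (u := ⟨u, h⟩) h1).1 h3)⟩

theorem bor_not {a b : Bool} : ((!a) || b) = true ↔ (a = true → b = true) := by
  cases a <;> cases b <;> simp

theorem bnot_iff {a : Bool} : (!a) = true ↔ ¬ a = true := by
  cases a <;> simp

theorem okM_iff (hA : A.Nodup) (hC : ∀ u : {u // u ∈ A}, (u : ℕ) ∈ C0 ↔ u ∈ C)
    {v : {u // u ∈ A}} (hv : v ∈ K \ C) {β : Set {u // u ∈ A}} {wl : List ℕ}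
    (hw : Agr x K C β wl v) : okM (En x A R K C0 L) wl v = true ↔
      OkM (GV x A) (Fr x A R K) K C (fun M => LK M ∈ L) β v := by
  rw [okM, Bool.and_eq_true, List.all_eq_true, List.all_eq_true, rsL_eq hA hC hv hw,
    cmL_eq hA hC hv, cnL_eq hA hC, OkM]
  refine and_congr ?_ ?_
  · constructor
    · intro h u hu
      have h1 := h u (mem_LK'.2 (UM_subset hu))
      rw [bor_not] at h1
      have h2 := h1 ((umB_iff hA hC hv hw (UM_subset hu)).2 hu)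
      rw [Bool.and_eq_true, Bool.and_eq_true, bnot_iff, List.all_eq_true, List.all_eq_true] at h2
      obtain ⟨h3, h4, h5⟩ := h2
      refine ⟨fun h6 => h3 (reqB_iff'.2 h6), fun c hc hcb hadj => ?_, fun u' hu' hadj => ?_⟩
      · have h6 := h4 c (mem_LK'.2 hc)
        rw [bor_not, bnot_iff] at h6
        exact h6 (memB_iff.2 ((hw c hc ⟨u, UM_subset hu, hadj⟩).1 hcb)) hadj
      · have h6 := h5 u' (mem_LK'.2 (UM_subset hu'))
        rw [bor_not, bnot_iff] at h6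
        exact h6 ((umB_iff hA hC hv hw (UM_subset hu')).2 hu') hadj
    · intro h u hu
      obtain ⟨huA, hu⟩ := mem_LK.1 hu
      rw [bor_not]
      intro h1
      obtain ⟨h3, h4, h5⟩ := h ⟨u, huA⟩ ((umB_iff hA hC hv hw (u := ⟨u, huA⟩) hu).1 h1)
      rw [Bool.and_eq_true, Bool.and_eq_true, bnot_iff, List.all_eq_true, List.all_eq_true]
      refine ⟨fun h6 => h3 ((reqB_iff' (u := ⟨u, huA⟩)).1 h6), fun c hc => ?_, fun u' hu' => ?_⟩
      · obtain ⟨hcA, hc⟩ := mem_LK.1 hc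
        rw [bor_not, bnot_iff]
        intro h6 hadj
        exact h4 ⟨c, hcA⟩ hc ((hw ⟨c, hcA⟩ hc ⟨⟨u, huA⟩, hu, hadj⟩).2 (memB_iff.1 h6)) hadj
      · obtain ⟨hu'A, hu'⟩ := mem_LK.1 hu'
        rw [bor_not, bnot_iff]
        intro h6 hadj
        exact h5 ⟨u', hu'A⟩ ((umB_iff hA hC hv hw (u := ⟨u', hu'A⟩) hu').1 h6) hadj
  · constructor
    · intro h u hu
      have h1 := h u (mem_LK'.2 hu)
      rw [memB_iff] at h1
      rwa [← reachL_LK hA hu]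
    · intro h u hu
      obtain ⟨huA, hu⟩ := mem_LK.1 hu
      rw [memB_iff]
      have h1 := h ⟨u, huA⟩ hu
      rwa [← reachL_LK hA hu] at h1

/-- The structure conditions. -/
theorem frame_iff (hA : A.Nodup) (hC : ∀ u : {u // u ∈ A}, (u : ℕ) ∈ C0 ↔ u ∈ C)
    (hCA : ∀ u ∈ C0, u ∈ A) : (condTri (En x A R K C0 L) = true ∧
      condSep (En x A R K C0 L) = true ∧ condLk (En x A R K C0 L) = true) ↔
    Frame (GV x A) K C := by
  have h1 : condTri (En x A R K C0 L) = true ↔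
      ∀ c ∈ K ∩ C, ∃ c' ∈ C, ∃ c'' ∈ C, Tri (GV x A) c c' c'' := by
    rw [condTri, List.all_eq_true, cnL_eq hA hC]
    constructor
    · intro h c hc
      have h2 := h c (mem_LK'.2 hc)
      rw [List.any_eq_true] at h2
      obtain ⟨c', hc', h2⟩ := h2
      rw [List.any_eq_true] at h2
      obtain ⟨c'', hc'', h2⟩ := h2
      exact ⟨⟨c', hCA c' hc'⟩, (hC ⟨c', hCA c' hc'⟩).1 hc', ⟨c'', hCA c'' hc''⟩,
        (hC ⟨c'', hCA c'' hc''⟩).1 hc'',
        (triB_iff (a := c) (b := ⟨c', hCA c' hc'⟩) (c := ⟨c'', hCA c'' hc''⟩)).1 h2⟩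
    · intro h c hc
      obtain ⟨hcA, hc⟩ := mem_LK.1 hc
      obtain ⟨c', hc', c'', hc'', h2⟩ := h ⟨c, hcA⟩ hc
      rw [List.any_eq_true]
      refine ⟨c', (hC c').2 hc', ?_⟩
      rw [List.any_eq_true]
      exact ⟨c'', (hC c'').2 hc'', (triB_iff (a := ⟨c, hcA⟩) (b := c') (c := c'')).2 h2⟩
  have h2 : condSep (En x A R K C0 L) = true ↔
      ∀ v ∈ K \ C, ∃ a b d, Sep3 (GV x A) a b d ∧
        ∀ c ∈ K ∩ C, Att (GV x A) K C v c → c = a ∨ c = b ∨ c = d := by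
    rw [condSep, List.all_eq_true, otL_eq hA hC, cnL_eq hA hC]
    have hin : ∀ v : {u // u ∈ A}, v ∈ K \ C → ∀ a b d : {u // u ∈ A},
        ((sep3B x a b d && (LK (K ∩ C)).all fun c => !(attB (En x A R K C0 L) v c) ||
          (decide (c = (a : ℕ)) || (decide (c = (b : ℕ)) || decide (c = (d : ℕ))))) = true ↔
        (Sep3 (GV x A) a b d ∧
          ∀ c ∈ K ∩ C, Att (GV x A) K C v c → c = a ∨ c = b ∨ c = d)) := by
      intro v hv a b d
      rw [Bool.and_eq_true, List.all_eq_true]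
      refine and_congr ?_ ?_
      · rw [sep3B, Bool.or_eq_true, decide_eq_true_eq, triB_iff]
        exact or_congr ⟨fun h => Subtype.ext h, fun h => congrArg _ h⟩ Iff.rfl
      · constructor
        · intro h c hc hatt
          have h3 := h c (mem_LK'.2 hc)
          rw [bor_not] at h3
          have h4 := h3 ((attB_iff hA hC hv).2 hatt)
          simp only [Bool.or_eq_true, decide_eq_true_eq] at h4
          rcases h4 with h4 | h4 | h4
          · exact Or.inl (Subtype.ext h4)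
          · exact Or.inr (Or.inl (Subtype.ext h4))
          · exact Or.inr (Or.inr (Subtype.ext h4))
        · intro h c hc
          obtain ⟨hcA, hc⟩ := mem_LK.1 hc
          rw [bor_not]
          intro h3
          have h4 := h ⟨c, hcA⟩ hc ((attB_iff hA hC (c := ⟨c, hcA⟩) hv).1 h3)
          simp only [Bool.or_eq_true, decide_eq_true_eq]
          rcases h4 with h4 | h4 | h4
          · exact Or.inl (congrArg Subtype.val h4)
          · exact Or.inr (Or.inl (congrArg Subtype.val h4))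
          · exact Or.inr (Or.inr (congrArg Subtype.val h4))
    constructor
    · intro h v hv
      have h3 := h v (mem_LK'.2 hv)
      simp only [List.any_eq_true] at h3
      obtain ⟨a, ha, b, hb, d, hd, h3⟩ := h3
      exact ⟨⟨a, ha⟩, ⟨b, hb⟩, ⟨d, hd⟩, (hin v hv ⟨a, ha⟩ ⟨b, hb⟩ ⟨d, hd⟩).1 h3⟩
    · intro h v hv
      obtain ⟨hvA, hv⟩ := mem_LK.1 hv
      obtain ⟨a, b, d, h3⟩ := h ⟨v, hvA⟩ hv
      simp only [List.any_eq_true]
      exact ⟨a, a.2, b, b.2, d, d.2, (hin ⟨v, hvA⟩ hv a b d).2 h3⟩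
  have h3 : condLk (En x A R K C0 L) = true ↔
      ∀ c ∈ K ∩ C, ∀ d ∈ K ∩ C, ∀ d' ∈ K ∩ C, ¬ SameTri (GV x A) c d →
        ¬ SameTri (GV x A) c d' → Lk (GV x A) K C c d → Lk (GV x A) K C c d' → d = d' := by
    rw [condLk, cnL_eq hA hC]
    simp only [List.all_eq_true]
    constructor
    · intro h c hc d hd d' hd' n1 n2 l1 l2
      have h4 := h c (mem_LK'.2 hc) d (mem_LK'.2 hd) d' (mem_LK'.2 hd')
      rw [Bool.or_eq_true, Bool.or_eq_true, bor_not, bor_not, decide_eq_true_eq, mateB_iff,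
        mateB_iff, lkB_iff hA hC, lkB_iff hA hC] at h4
      rcases h4 with h4 | h4 | h4
      · exact absurd h4 n1
      · exact absurd h4 n2
      · exact Subtype.ext (h4 l1 l2)
    · intro h c hc d hd d' hd'
      obtain ⟨hcA, hc⟩ := mem_LK.1 hc
      obtain ⟨hdA, hd⟩ := mem_LK.1 hd
      obtain ⟨hdA', hd'⟩ := mem_LK.1 hd'
      rw [Bool.or_eq_true, Bool.or_eq_true, bor_not, bor_not, decide_eq_true_eq,
        mateB_iff (c := ⟨c, hcA⟩) (d := ⟨d, hdA⟩), mateB_iff (c := ⟨c, hcA⟩) (d := ⟨d', hdA'⟩),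
        lkB_iff hA hC (c := ⟨c, hcA⟩) (d := ⟨d, hdA⟩),
        lkB_iff hA hC (c := ⟨c, hcA⟩) (d := ⟨d', hdA'⟩)]
      by_cases n1 : SameTri (GV x A) ⟨c, hcA⟩ ⟨d, hdA⟩
      · exact Or.inl n1
      · by_cases n2 : SameTri (GV x A) ⟨c, hcA⟩ ⟨d', hdA'⟩
        · exact Or.inr (Or.inl n2)
        · exact Or.inr (Or.inr (fun l1 l2 => congrArg Subtype.val
            (h _ hc _ hd _ hd' n1 n2 l1 l2)))
  rw [h1, h2, h3]
  exact ⟨fun ⟨a, b, c⟩ => ⟨a, b, c⟩, fun ⟨a, b, c⟩ => ⟨a, b, c⟩⟩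

end Pool.Agent.Work.MP_c4d05f_lc.N
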